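import Pool.Agent.WHL.Defs

/-!
# WHL: averaging over the `N`-th roots
-/

set_option autoImplicit false

open Polynomial

namespace Pool.Agent.WHL

/-- a primitive root of unity of large order -/
private lemma av_ne {q : ℕ} {ξ : ℂ} (h : IsPrimitiveRoot ξ q) {b : ℤ} (hb : b ≠ 0)
    (hq : |b| < q) : ξ ^ b ≠ 1 := by
  rw [Ne, h.zpow_eq_one_iff_dvd]
  exact fun hd => hb (Int.eq_zero_of_abs_lt_dvd hd hq)

/-- powers with exponents prime to `N` permute the `N`-th roots of unity -/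
private lemma av_inj {N : ℕ} {a : ℤ} (hN : 0 < N) (ha : IsCoprime a (N : ℤ)) :
    Set.InjOn (fun ζ : ℂ => ζ ^ a) (nthRootsFinset N (1 : ℂ) : Set ℂ) := by
  intro ζ hζ η hη h
  rw [Finset.mem_coe, mem_nthRootsFinset hN] at hζ hη
  have hη0 : η ≠ 0 := by
    rintro rfl
    rw [zero_pow hN.ne'] at hη
    exact zero_ne_one hη
  have hζ0 : ζ ≠ 0 := by
    rintro rfl
    rw [zero_pow hN.ne'] at hζ
    exact zero_ne_one hζ
  obtain ⟨x, y, hxy⟩ := ha
  have h1 : (ζ / η) ^ a = 1 := by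
    rw [div_zpow]
    exact (div_eq_one_iff_eq (zpow_ne_zero _ hη0)).2 h
  have h2 : (ζ / η) ^ (N : ℤ) = 1 := by
    rw [zpow_natCast, div_pow, hζ, hη, div_one]
  have h0 : ζ / η ≠ 0 := div_ne_zero hζ0 hη0
  have h3 : ζ / η = 1 := by
    calc ζ / η = (ζ / η) ^ (x * a + y * N) := by rw [hxy, zpow_one]
      _ = 1 := by
        rw [zpow_add₀ h0, mul_comm x a, mul_comm y, zpow_mul, zpow_mul, h1, h2, one_zpow,
          one_zpow, mul_one]
  exact (div_eq_one_iff_eq hη0).1 h3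

/-- the product over the translates by the roots of unity -/
private lemma av_prod {N : ℕ} (hN : N.Prime) {a : ℤ} (ha : a ≠ 0) (haN : |a| < N) (w : ℂ) :
    ∏ ζ ∈ nthRootsFinset N (1 : ℂ), ‖1 - ζ ^ a * w‖ = ‖1 - w ^ N‖ := by
  classical
  have hco : IsCoprime a (N : ℤ) := by
    refine IsCoprime.symm ?_
    rw [(Nat.prime_iff_prime_int.1 hN).coprime_iff_not_dvd]
    exact fun hd => ha (Int.eq_zero_of_abs_lt_dvd hd haN)
  have hinj := av_inj hN.pos hco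
  have himg : (nthRootsFinset N (1 : ℂ)).image (fun ζ : ℂ => ζ ^ a) =
      nthRootsFinset N (1 : ℂ) := by
    refine Finset.eq_of_subset_of_card_le ?_ ?_
    · intro x hx
      obtain ⟨ζ, hζ, rfl⟩ := Finset.mem_image.1 hx
      rw [mem_nthRootsFinset hN.pos] at hζ ⊢
      rw [← zpow_natCast, ← zpow_mul, mul_comm, zpow_mul, zpow_natCast, hζ, one_zpow]
    · rw [Finset.card_image_of_injOn hinj]
  have h1 : ∏ ζ ∈ nthRootsFinset N (1 : ℂ), ‖1 - ζ ^ a * w‖ =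
      ∏ ζ ∈ nthRootsFinset N (1 : ℂ), ‖1 - ζ * w‖ := by
    conv_rhs => rw [← himg]
    rw [Finset.prod_image hinj]
  have h2 := (Complex.isPrimitiveRoot_exp N hN.ne_zero).pow_sub_pow_eq_prod_sub_mul
    (x := (1 : ℂ)) (y := w) hN.pos
  rw [one_pow] at h2
  rw [h1, h2, norm_prod]

theorem thm_Aver : St_Aver := by
  intro k a hk ha B hB
  -- the prime `q`
  obtain ⟨q, hq1, hq⟩ := Nat.exists_infinite_primes
    (((B.sup Int.natAbs) ⊔ (Finset.univ.sup fun i => (a i).natAbs) ⊔ (∑ i, a i).natAbs) + 1)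
  have hqB : ∀ b ∈ B, |b| < (q : ℤ) := by
    intro b hb
    have h1 : b.natAbs ≤ B.sup Int.natAbs := Finset.le_sup (f := Int.natAbs) hb
    have h2 : b.natAbs < q := by omega
    rw [Int.abs_eq_natAbs]
    exact_mod_cast h2
  have hqa : ∀ i, |a i| < (q : ℤ) := by
    intro i
    have h1 : (a i).natAbs ≤ Finset.univ.sup fun i => (a i).natAbs :=
      Finset.le_sup (f := fun i => (a i).natAbs) (Finset.mem_univ i)
    have h2 : (a i).natAbs < q := by omega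
    rw [Int.abs_eq_natAbs]
    exact_mod_cast h2
  have hqs : |∑ i, a i| < (q : ℤ) := by
    have h2 : (∑ i, a i).natAbs < q := by omega
    rw [Int.abs_eq_natAbs]
    exact_mod_cast h2
  set ξ : ℂ := Complex.exp (2 * Real.pi * Complex.I / q) with hξ
  have hprim : IsPrimitiveRoot ξ q := Complex.isPrimitiveRoot_exp q hq.ne_zero
  have hξn : ‖ξ‖ = 1 := hprim.norm'_eq_one hq.ne_zero
  by_cases hs : ∑ i, a i = 0
  · refine ⟨ξ, hξn, fun b hb => av_ne hprim (hB b hb) (hqB b hb),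
      fun i => av_ne hprim (ha i) (hqa i), ?_⟩
    rw [hs, zpow_zero, sub_self, norm_zero, zero_pow (by omega), mul_zero]
    refine pow_pos (Finset.prod_pos fun i _ => ?_) 9
    rw [norm_pos_iff, sub_ne_zero]
    exact (av_ne hprim (ha i) (hqa i)).symm
  -- the constant
  set c : ℝ := ∏ i, ‖1 - ξ ^ a i‖ with hc
  have hcpos : 0 < c := Finset.prod_pos fun i _ => by
    rw [norm_pos_iff, sub_ne_zero]
    exact (av_ne hprim (ha i) (hqa i)).symm
  have hlim : Filter.Tendsto (fun N : ℕ => (1 / 2 : ℝ) ^ N * 2 ^ (4 * k)) Filter.atTop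
      (nhds (0 * 2 ^ (4 * k))) :=
    (tendsto_pow_atTop_nhds_zero_of_lt_one (by norm_num) (by norm_num)).mul_const _
  rw [zero_mul] at hlim
  obtain ⟨N₀, hN₀⟩ := Filter.eventually_atTop.1 (hlim.eventually_lt_const (pow_pos hcpos 9))
  obtain ⟨N, hN1, hN⟩ := Nat.exists_infinite_primes
    (N₀ ⊔ ((Finset.univ.sup fun i => (a i).natAbs) ⊔ (∑ i, a i).natAbs) + 1)
  have hNN : N₀ ≤ N := by omega
  have hNa : ∀ i, |a i| < (N : ℤ) := by
    intro i
    have h1 : (a i).natAbs ≤ Finset.univ.sup fun i => (a i).natAbs :=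
      Finset.le_sup (f := fun i => (a i).natAbs) (Finset.mem_univ i)
    have h2 : (a i).natAbs < N := by omega
    rw [Int.abs_eq_natAbs]
    exact_mod_cast h2
  have hNs : |∑ i, a i| < (N : ℤ) := by
    have h2 : (∑ i, a i).natAbs < N := by omega
    rw [Int.abs_eq_natAbs]
    exact_mod_cast h2
  -- an `N`-th root of `ξ`
  obtain ⟨z₀, hz₀⟩ : ∃ z₀ : ℂ, z₀ ^ N = ξ := IsAlgClosed.exists_pow_nat_eq ξ hN.pos
  have hz₀n : ‖z₀‖ = 1 := by
    have h1 : ‖z₀‖ ^ N = 1 := by rw [← norm_pow, hz₀, hξn]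
    exact (pow_eq_one_iff_of_nonneg (norm_nonneg _) hN.ne_zero).1 h1
  by_contra hcon
  push Not at hcon
  have key : ∀ ζ ∈ nthRootsFinset N (1 : ℂ), (∏ i, ‖1 - (ζ * z₀) ^ a i‖) ^ 9 ≤
      (1 / 2) ^ k * ‖1 - (ζ * z₀) ^ (∑ i, a i)‖ ^ (4 * k) := by
    intro ζ hζ
    rw [mem_nthRootsFinset hN.pos] at hζ
    have hζn : ‖ζ‖ = 1 := by
      have h1 : ‖ζ‖ ^ N = 1 := by rw [← norm_pow, hζ, norm_one]
      exact (pow_eq_one_iff_of_nonneg (norm_nonneg _) hN.ne_zero).1 h1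
    have hpow : ∀ b : ℤ, (ζ * z₀) ^ b = 1 → ξ ^ b = 1 := by
      intro b hb
      have h1 : ((ζ * z₀) ^ N) ^ b = 1 := by
        rw [← zpow_natCast, ← zpow_mul, mul_comm (N : ℤ) b, zpow_mul, hb, one_zpow]
      rwa [mul_pow, hζ, hz₀, one_mul] at h1
    exact hcon (ζ * z₀) (by rw [norm_mul, hζn, hz₀n, one_mul])
      (fun b hb h => av_ne hprim (hB b hb) (hqB b hb) (hpow b h))
      (fun i h => av_ne hprim (ha i) (hqa i) (hpow _ h))
  have hfac : ∀ b : ℤ, b ≠ 0 → |b| < (N : ℤ) →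
      ∏ ζ ∈ nthRootsFinset N (1 : ℂ), ‖1 - (ζ * z₀) ^ b‖ = ‖1 - ξ ^ b‖ := by
    intro b hb hbN
    have h1 := av_prod hN hb hbN (z₀ ^ b)
    have h2 : (z₀ ^ b) ^ N = ξ ^ b := by
      rw [← hz₀, ← zpow_natCast, ← zpow_mul, mul_comm, zpow_mul, zpow_natCast]
    rw [h2] at h1
    rw [← h1]
    exact Finset.prod_congr rfl fun ζ _ => by rw [mul_zpow]
  have hmul : ∏ ζ ∈ nthRootsFinset N (1 : ℂ), (∏ i, ‖1 - (ζ * z₀) ^ a i‖) ^ 9 ≤
      ∏ ζ ∈ nthRootsFinset N (1 : ℂ),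
        ((1 / 2) ^ k * ‖1 - (ζ * z₀) ^ (∑ i, a i)‖ ^ (4 * k)) :=
    Finset.prod_le_prod (fun ζ _ => pow_nonneg (Finset.prod_nonneg fun i _ => norm_nonneg _) _)
      key
  have hcard : (nthRootsFinset N (1 : ℂ)).card = N :=
    (Complex.isPrimitiveRoot_exp N hN.ne_zero).card_nthRootsFinset
  rw [Finset.prod_pow, Finset.prod_comm, Finset.prod_congr rfl fun i _ => hfac (a i) (ha i)
    (hNa i), Finset.prod_mul_distrib, Finset.prod_const, hcard, Finset.prod_pow,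
    hfac _ hs hNs, ← hc] at hmul
  have h2 : ‖1 - ξ ^ (∑ i, a i)‖ ≤ 2 := by
    refine (norm_sub_le _ _).trans ?_
    rw [norm_one, norm_zpow, hξn, one_zpow]
    norm_num
  have h3 : ((1 / 2 : ℝ) ^ k) ^ N ≤ (1 / 2) ^ N := by
    rw [← pow_mul]
    exact pow_le_pow_of_le_one (by norm_num) (by norm_num) (Nat.le_mul_of_pos_left N hk)
  have h4 : ((1 / 2 : ℝ) ^ k) ^ N * ‖1 - ξ ^ (∑ i, a i)‖ ^ (4 * k) ≤
      (1 / 2) ^ N * 2 ^ (4 * k) :=
    mul_le_mul h3 (pow_le_pow_left₀ (norm_nonneg _) h2 _) (pow_nonneg (norm_nonneg _) _)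
      (pow_nonneg (by norm_num) _)
  exact absurd (hN₀ N hNN) (not_lt.2 (hmul.trans h4))

end Pool.Agent.WHL
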