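import Pool.Agent.WHL.Defs

/-!
# WHL: few spokes, or a rim element is missing, `St_Few`
-/

set_option autoImplicit false

open Matrix

namespace Pool.Agent.WHL

private theorem Few_comm (A B : List (ℂ × ℂ)) : WW (A ++ B) = WW (B ++ A) := by
  unfold WW
  rw [List.map_append, List.map_append, List.map_append, List.map_append, List.prod_append,
    List.prod_append, List.prod_append, List.prod_append, Matrix.trace_mul_comm, mul_comm
      (List.map (fun t : ℂ × ℂ => t.1 - 1) A).prod]

/-! ### some rim element is missing -/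

private noncomputable def Few_st (t v : ℂ × ℂ) : ℂ × ℂ :=
  (t.1 * t.2 * v.1 - v.2, t.2 * v.1 + (t.1 - 2) * v.2)

private noncomputable def Few_act (L : List (ℂ × ℂ)) : ℂ × ℂ := L.foldr Few_st (1, 1)

private theorem Few_act_eq (L : List (ℂ × ℂ)) :
    (L.map TD).prod *ᵥ ![1, 1] = ![(Few_act L).1, (Few_act L).2] := by
  induction L with
  | nil => simp [Few_act]
  | cons t L ih =>
    rw [List.map_cons, List.prod_cons, ← Matrix.mulVec_mulVec, ih]
    ext i
    fin_cases i
    · simp [TD, Few_act, Few_st, Matrix.mulVec, dotProduct, Fin.sum_univ_two]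
      ring
    · simp [TD, Few_act, Few_st, Matrix.mulVec, dotProduct, Fin.sum_univ_two]

private theorem Few_WW (t : ℂ × ℂ) (L : List (ℂ × ℂ)) (ht : t.1 = 1) :
    WW (t :: L) = t.2 * (Few_act L).1 - (Few_act L).2 := by
  have h := Few_act_eq L
  have h0 := congrFun h 0
  have h1 := congrFun h 1
  simp only [Matrix.mulVec, dotProduct, Fin.sum_univ_two, Matrix.cons_val_zero, Matrix.cons_val_one,
    mul_one] at h0 h1
  unfold WW
  rw [List.map_cons, List.prod_cons, List.map_cons, List.prod_cons, ht, sub_self, zero_mul, mul_zero,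
    sub_zero, Matrix.trace_fin_two, Matrix.mul_apply, Matrix.mul_apply, Fin.sum_univ_two,
    Fin.sum_univ_two, ← h0, ← h1]
  simp only [TD, Matrix.of_apply, Matrix.cons_val', Matrix.cons_val_zero, Matrix.cons_val_one,
    Matrix.cons_val_fin_one, ht]
  ring

private theorem Few_id (r X y : ℂ) :
    Complex.normSq (X + (r - 2) * y) - Complex.normSq (r * X - y) =
      Complex.normSq (r - 1) * (Complex.normSq y - Complex.normSq X) +
        2 * (1 - r.re) * Complex.normSq (y - X) := by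
  simp only [Complex.normSq_apply, Complex.add_re, Complex.add_im, Complex.sub_re, Complex.sub_im,
    Complex.mul_re, Complex.mul_im, Complex.one_re, Complex.one_im]
  have h2r : (2 : ℂ).re = 2 := rfl
  have h2i : (2 : ℂ).im = 0 := rfl
  rw [h2r, h2i]
  ring

private theorem Few_re (r : ℂ) (h1 : ‖r‖ ≤ 1) (h2 : r ≠ 1) : r.re < 1 := by
  have h3 : r.re ≤ 1 := (Complex.re_le_norm r).trans h1
  refine lt_of_le_of_ne h3 (fun h => h2 ?_)
  have h4 : Complex.normSq r ≤ 1 := by
    rw [Complex.normSq_eq_norm_sq]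
    nlinarith [norm_nonneg r]
  rw [Complex.normSq_apply, h] at h4
  have h5 : r.im = 0 := by nlinarith [mul_self_nonneg r.im]
  exact Complex.ext h h5

private theorem Few_nsq (z x : ℂ) (hz : ‖z‖ = 1) : Complex.normSq (z * x) = Complex.normSq x := by
  rw [Complex.normSq_mul, Complex.normSq_eq_norm_sq z, hz]
  ring

private theorem Few_split (Q : List (ℂ × ℂ)) : ∃ P R, Q = P ++ R ∧ (∀ u ∈ P, u.1 ≠ 1) ∧
    (R = [] ∨ ∃ s R', R = s :: R' ∧ s.1 = 1) := by
  induction Q with
  | nil => exact ⟨[], [], rfl, by simp, Or.inl rfl⟩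
  | cons t Q ih =>
    by_cases h : t.1 = 1
    · exact ⟨[], t :: Q, rfl, by simp, Or.inr ⟨t, Q, rfl, h⟩⟩
    · obtain ⟨P, R, h1, h2, h3⟩ := ih
      refine ⟨t :: P, R, by rw [h1]; rfl, ?_, h3⟩
      intro u hu
      rcases List.mem_cons.1 hu with rfl | hu
      · exact h
      · exact h2 u hu

private def Few_H (Q : List (ℂ × ℂ)) : Prop :=
  (∀ X t P s R, Q = X ++ (t :: P ++ s :: R) → t.1 = 1 → s.1 = 1 → ∃ u ∈ t :: P, u.2 ≠ 1) ∧
    ∀ X t P, Q = X ++ t :: P → t.1 = 1 → ∃ u ∈ t :: P, u.2 ≠ 1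

private theorem Few_inv (Q : List (ℂ × ℂ)) (hQ : ∀ t ∈ Q, ‖t.1‖ ≤ 1 ∧ ‖t.2‖ = 1) (hH : Few_H Q) :
    Complex.normSq (Few_act Q).1 < Complex.normSq (Few_act Q).2 ∨
      ((Few_act Q).1 = (Few_act Q).2 ∧ (Few_act Q).1 ≠ 0 ∧
        ∀ P R, Q = P ++ R → (∀ u ∈ P, u.1 ≠ 1) → ∀ u ∈ P, u.2 = 1) := by
  induction Q with
  | nil =>
    right
    refine ⟨rfl, one_ne_zero, ?_⟩
    intro P R h _ u hu
    rw [List.nil_eq, List.append_eq_nil_iff] at h
    rw [h.1] at hu
    simp at hu
  | cons t Q ih =>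
    obtain ⟨ht1, ht2⟩ := hQ t (by simp)
    have hH' : Few_H Q := by
      refine ⟨?_, ?_⟩
      · intro X t' P s R h h1 h2
        exact hH.1 (t :: X) t' P s R (by rw [h]; rfl) h1 h2
      · intro X t' P h h1
        exact hH.2 (t :: X) t' P (by rw [h]; rfl) h1
    have ih' := ih (fun u hu => hQ u (List.mem_cons_of_mem _ hu)) hH'
    have hact : Few_act (t :: Q) = Few_st t (Few_act Q) := rfl
    rw [hact]
    generalize Few_act Q = v at ih'
    obtain ⟨x, y⟩ := v
    have e1 : (Few_st t (x, y)).1 = t.1 * (t.2 * x) - y := by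
      simp only [Few_st]
      ring
    have e2 : (Few_st t (x, y)).2 = t.2 * x + (t.1 - 2) * y := rfl
    rw [e1, e2]
    dsimp only at ih'
    have hid := Few_id t.1 (t.2 * x) y
    have hns := Few_nsq t.2 x ht2
    -- after the spoke
    have key : (Complex.normSq (t.2 * x) < Complex.normSq y ∨
        (Complex.normSq (t.2 * x) = Complex.normSq y ∧ t.2 * x ≠ y)) →
        Complex.normSq (t.1 * (t.2 * x) - y) < Complex.normSq (t.2 * x + (t.1 - 2) * y) ∨
        (t.1 * (t.2 * x) - y = t.2 * x + (t.1 - 2) * y ∧ t.1 * (t.2 * x) - y ≠ 0 ∧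
        ∀ P R, t :: Q = P ++ R → (∀ u ∈ P, u.1 ≠ 1) → ∀ u ∈ P, u.2 = 1) := by
      intro h
      have hne : y - t.2 * x ≠ 0 := by
        rcases h with h | h
        · intro h0
          rw [sub_eq_zero] at h0
          rw [h0] at h
          exact lt_irrefl _ h
        · intro h0
          exact h.2 (sub_eq_zero.1 h0).symm
      by_cases hr : t.1 = 1
      · right
        rw [hr]
        refine ⟨by ring, ?_, ?_⟩
        · intro h0
          apply hne
          linear_combination -h0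
        · intro P R hPR hP u hu
          cases P with
          | nil => simp at hu
          | cons p P =>
            exfalso
            rw [List.cons_append, List.cons.injEq] at hPR
            exact hP p (by simp) (by rw [← hPR.1]; exact hr)
      · left
        have h1 : 0 < 1 - t.1.re := by
          have := Few_re t.1 ht1 hr
          linarith
        have h2 : 0 < Complex.normSq (y - t.2 * x) := Complex.normSq_pos.2 hne
        have h3 : 0 < Complex.normSq (t.1 - 1) := Complex.normSq_pos.2 (sub_ne_zero.2 hr)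
        have h4 : 0 ≤ Complex.normSq y - Complex.normSq (t.2 * x) := by
          rcases h with h | h
          · linarith
          · linarith [h.1]
        have h5 := mul_nonneg h3.le h4
        have h6 := mul_pos (mul_pos (by norm_num : (0 : ℝ) < 2) h1) h2
        linarith
    rcases ih' with h | ⟨hxy, hx0, hB⟩
    · exact key (Or.inl (by rw [hns]; exact h))
    · by_cases hz : t.2 = 1
      · subst hxy
        have hx0' : x ≠ 0 := hx0
        have hr : t.1 ≠ 1 := by
          intro hr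
          obtain ⟨P, R, h1, h2, h3⟩ := Few_split Q
          have h4 : ∃ u ∈ t :: P, u.2 ≠ 1 := by
            rcases h3 with h3 | ⟨s, R', h3, h5⟩
            · refine hH.2 [] t P ?_ hr
              rw [h1, h3]
              simp
            · refine hH.1 [] t P s R' ?_ hr h5
              rw [h1, h3]
              simp
          obtain ⟨u, hu, hu2⟩ := h4
          rcases List.mem_cons.1 hu with rfl | hu
          · exact hu2 hz
          · exact hu2 (hB P R h1 h2 u hu)
        right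
        rw [hz]
        refine ⟨by ring, ?_, ?_⟩
        · have h : t.1 * (1 * x) - x = (t.1 - 1) * x := by ring
          rw [h]
          exact mul_ne_zero (sub_ne_zero.2 hr) hx0'
        · intro P R hPR hP u hu
          cases P with
          | nil => simp at hu
          | cons p P =>
            rw [List.cons_append, List.cons.injEq] at hPR
            rcases List.mem_cons.1 hu with rfl | hu
            · rw [← hPR.1]
              exact hz
            · exact hB P R hPR.2 (fun w hw => hP w (List.mem_cons_of_mem _ hw)) u hu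
      · refine key (Or.inr ⟨by rw [hns, hxy], ?_⟩)
        subst hxy
        intro h
        apply hz
        have h1 : (t.2 - 1) * x = 0 := by linear_combination h
        rcases mul_eq_zero.1 h1 with h2 | h2
        · exact sub_eq_zero.1 h2
        · exact absurd h2 hx0

private theorem Few_case1 (L : List (ℂ × ℂ)) (hL : ∀ t ∈ L, ‖t.1‖ ≤ 1 ∧ ‖t.2‖ = 1) (hS : Spn L)
    (h1 : ∃ t ∈ L, t.1 = 1) : WW L ≠ 0 := by
  obtain ⟨t0, ht0, hr0⟩ := h1
  obtain ⟨A, B, rfl⟩ := List.append_of_mem ht0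
  have hrot : (A ++ t0 :: B) ~r (t0 :: (B ++ A)) := by
    have h := List.isRotated_append (l := A) (l' := t0 :: B)
    simpa using h
  have hH : Few_H (B ++ A) := by
    refine ⟨?_, ?_⟩
    · intro X t P s R h h1 h2
      refine hS.2 t s P (R ++ t0 :: X) (hrot.trans ?_) h1 h2
      rw [h]
      have h3 := List.isRotated_append (l := t0 :: X) (l' := t :: P ++ s :: R)
      simpa using h3
    · intro X t P h h1
      refine hS.2 t t0 P X (hrot.trans ?_) h1 hr0
      rw [h]
      have h3 := List.isRotated_append (l := t0 :: X) (l' := t :: P)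
      simpa using h3
  have hinv := Few_inv (B ++ A) (fun u hu => hL u (by
    simp only [List.mem_append, List.mem_cons] at hu ⊢
    tauto)) hH
  have hW : WW (A ++ t0 :: B) = t0.2 * (Few_act (B ++ A)).1 - (Few_act (B ++ A)).2 := by
    rw [Few_comm, List.cons_append, Few_WW _ _ hr0]
  rw [hW]
  intro h0
  rw [sub_eq_zero] at h0
  rcases hinv with h | ⟨h, hx, hB⟩
  · rw [← h0, Few_nsq _ _ (hL t0 ht0).2] at h
    exact lt_irrefl _ h
  · have hz : t0.2 = 1 := by
      rw [← h] at h0
      have h1 : (t0.2 - 1) * (Few_act (B ++ A)).1 = 0 := by linear_combination h0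
      rcases mul_eq_zero.1 h1 with h2 | h2
      · exact sub_eq_zero.1 h2
      · exact absurd h2 hx
    obtain ⟨P, R, e1, e2, e3⟩ := Few_split (B ++ A)
    have h4 : ∃ u ∈ t0 :: P, u.2 ≠ 1 := by
      rcases e3 with e3 | ⟨s, R', e3, e4⟩
      · obtain ⟨u, hu, hu2⟩ := hS.1
        refine ⟨u, ?_, hu2⟩
        rw [e3, List.append_nil] at e1
        rw [← e1]
        simp only [List.mem_append, List.mem_cons] at hu ⊢
        tauto
      · refine hS.2 t0 s P R' (hrot.trans ?_) hr0 e4
        rw [e1, e3]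
        exact List.IsRotated.refl _
    obtain ⟨u, hu, hu2⟩ := h4
    rcases List.mem_cons.1 hu with rfl | hu
    · exact hu2 hz
    · exact hu2 (hB P R e1 e2 u hu)

/-! ### few spokes -/

private noncomputable def Few_b (p z : ℂ) : Matrix (Fin 2) (Fin 2) ℂ := !![(1 - p) * z, p; -p * z, 1 + p]

private theorem Few_TD (t : ℂ × ℂ) (h : t.1 ≠ 1) : TD t = (t.1 - 1) • Few_b (1 - t.1)⁻¹ t.2 := by
  have h1 : (1 : ℂ) - t.1 ≠ 0 := sub_ne_zero.2 (Ne.symm h)
  have h2 : (1 - t.1) * (1 - t.1)⁻¹ = 1 := mul_inv_cancel₀ h1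
  ext i j
  fin_cases i <;> fin_cases j
  · simp only [TD, Few_b, Matrix.smul_apply, smul_eq_mul, Fin.zero_eta, Matrix.of_apply,
      Matrix.cons_val', Matrix.cons_val_zero, Matrix.cons_val_fin_one]
    linear_combination -t.2 * h2
  · simp only [TD, Few_b, Matrix.smul_apply, smul_eq_mul, Fin.zero_eta, Fin.mk_one, Matrix.of_apply,
      Matrix.cons_val', Matrix.cons_val_zero, Matrix.cons_val_one, Matrix.cons_val_fin_one]
    linear_combination h2
  · simp only [TD, Few_b, Matrix.smul_apply, smul_eq_mul, Fin.zero_eta, Fin.mk_one, Matrix.of_apply,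
      Matrix.cons_val', Matrix.cons_val_zero, Matrix.cons_val_one, Matrix.cons_val_fin_one]
    linear_combination -t.2 * h2
  · simp only [TD, Few_b, Matrix.smul_apply, smul_eq_mul, Fin.mk_one, Matrix.of_apply,
      Matrix.cons_val', Matrix.cons_val_one, Matrix.cons_val_fin_one]
    linear_combination h2

private theorem Few_bb (p q z : ℂ) : Few_b p 1 * Few_b q z = Few_b (p + q) z := by
  ext i j
  fin_cases i <;> fin_cases j <;>
    simp [Few_b, Matrix.mul_apply, Fin.sum_univ_two] <;> ring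

private theorem Few_blk (Q : List (ℂ × ℂ)) (t : ℂ × ℂ) (hQ : ∀ u ∈ Q, u.1 ≠ 1 ∧ u.2 = 1) (ht : t.1 ≠ 1) :
    ((Q ++ [t]).map TD).prod = ((Q ++ [t]).map fun u => u.1 - 1).prod •
      Few_b ((Q ++ [t]).map fun u => (1 - u.1)⁻¹).sum t.2 := by
  induction Q with
  | nil => simp [Few_TD t ht]
  | cons s Q ih =>
    have ih' := ih (fun u hu => hQ u (List.mem_cons_of_mem _ hu))
    obtain ⟨h1, h2⟩ := hQ s (by simp)
    rw [List.cons_append, List.map_cons, List.prod_cons, ih', Few_TD s h1, h2, List.map_cons,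
      List.prod_cons, List.map_cons, List.sum_cons, Matrix.smul_mul, Matrix.mul_smul, Few_bb,
      smul_smul]

private theorem Few_half (Q : List (ℂ × ℂ)) (hQ : ∀ u ∈ Q, ‖u.1‖ ≤ 1 ∧ u.1 ≠ 1) :
    (Q.length : ℝ) / 2 ≤ ((Q.map fun u : ℂ × ℂ => (1 - u.1)⁻¹).sum).re := by
  induction Q with
  | nil => simp
  | cons t Q ih =>
    have ih' := ih (fun u hu => hQ u (List.mem_cons_of_mem _ hu))
    obtain ⟨h1, h2⟩ := hQ t (by simp)
    rw [List.map_cons, List.sum_cons, Complex.add_re, List.length_cons, Nat.cast_succ]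
    have h3 : (1 : ℝ) / 2 ≤ ((1 - t.1)⁻¹).re := by
      have h4 : (1 : ℂ) - t.1 ≠ 0 := sub_ne_zero.2 (Ne.symm h2)
      have h5 : 0 < Complex.normSq (1 - t.1) := Complex.normSq_pos.2 h4
      have h6 : Complex.normSq t.1 ≤ 1 := by
        rw [Complex.normSq_eq_norm_sq]
        nlinarith [norm_nonneg t.1]
      rw [Complex.inv_re, le_div_iff₀ h5]
      rw [Complex.normSq_apply] at h6 ⊢
      simp only [Complex.sub_re, Complex.sub_im, Complex.one_re, Complex.one_im]
      nlinarith
    linarith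

private theorem Few_q (z : ℂ) (h1 : ‖z‖ = 1) (h2 : z ≠ 1) : ((1 - z)⁻¹).re = 1 / 2 := by
  have h4 : (1 : ℂ) - z ≠ 0 := sub_ne_zero.2 (Ne.symm h2)
  have h5 : 0 < Complex.normSq (1 - z) := Complex.normSq_pos.2 h4
  have h6 : Complex.normSq z = 1 := by
    rw [Complex.normSq_eq_norm_sq, h1]
    norm_num
  rw [Complex.inv_re, div_eq_iff h5.ne']
  rw [Complex.normSq_apply] at h6 ⊢
  simp only [Complex.sub_re, Complex.sub_im, Complex.one_re, Complex.one_im]
  nlinarith

private theorem Few_two (p p' z z' : ℂ) (hp : 1 / 2 ≤ p.re) (hp' : 1 / 2 ≤ p'.re)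
    (hs : 3 / 2 ≤ p.re + p'.re) (hz : ‖z‖ = 1) (hz1 : z ≠ 1) (hz' : ‖z'‖ = 1) (hz1' : z' ≠ 1) :
    (z * z' - 1) * (1 - p - p') + p * p' * (z - 1) * (z' - 1) ≠ 0 := by
  intro h0
  have hq := Few_q z hz hz1
  have hq' := Few_q z' hz' hz1'
  have hqi : (1 - z)⁻¹ * (1 - z) = 1 := inv_mul_cancel₀ (sub_ne_zero.2 (Ne.symm hz1))
  have hqi' : (1 - z')⁻¹ * (1 - z') = 1 := inv_mul_cancel₀ (sub_ne_zero.2 (Ne.symm hz1'))
  generalize (1 - z)⁻¹ = q at hq hqi
  generalize (1 - z')⁻¹ = q' at hq' hqi'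
  have e1 : q * z = q - 1 := by linear_combination -hqi
  have e2 : q' * z' = q' - 1 := by linear_combination -hqi'
  have h1 : p * p' = -((q + q' - 1) * (p + p' - 1)) := by
    have h2 : q * q' * ((z * z' - 1) * (1 - p - p') + p * p' * (z - 1) * (z' - 1)) =
        ((q * z) * (q' * z') - q * q') * (1 - p - p') + p * p' * (q * z - q) * (q' * z' - q') := by
      ring
    rw [h0, mul_zero, e1, e2] at h2
    linear_combination -h2
  have h3 : (p * p' * (starRingEnd ℂ) (p + p' - 1)).re =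
      -((q.re + q'.re - 1) * Complex.normSq (p + p' - 1)) := by
    rw [h1]
    simp only [Complex.normSq_apply, Complex.mul_re, Complex.mul_im, Complex.neg_re, Complex.neg_im,
      Complex.conj_re, Complex.conj_im, Complex.add_re, Complex.add_im, Complex.sub_re,
      Complex.sub_im, Complex.one_re, Complex.one_im]
    ring
  rw [hq, hq'] at h3
  have h4 : (p * p' * (starRingEnd ℂ) (p + p' - 1)).re = (p.re + p'.re - 1) / 4 +
      Complex.normSq (p + p' - 1) / 2 + ((p.re - 1 / 2) ^ 2 + p.im ^ 2) * (p'.re - 1 / 2) +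
      ((p'.re - 1 / 2) ^ 2 + p'.im ^ 2) * (p.re - 1 / 2) := by
    simp only [Complex.normSq_apply, Complex.mul_re, Complex.mul_im,
      Complex.conj_re, Complex.conj_im, Complex.add_re, Complex.add_im, Complex.sub_re,
      Complex.sub_im, Complex.one_re, Complex.one_im]
    ring
  have h5 : 0 ≤ Complex.normSq (p + p' - 1) := Complex.normSq_nonneg _
  have h6 : 0 ≤ ((p.re - 1 / 2) ^ 2 + p.im ^ 2) * (p'.re - 1 / 2) :=
    mul_nonneg (by positivity) (by linarith)
  have h7 : 0 ≤ ((p'.re - 1 / 2) ^ 2 + p'.im ^ 2) * (p.re - 1 / 2) :=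
    mul_nonneg (by positivity) (by linarith)
  rw [h4] at h3
  norm_num at h3
  linarith

private theorem Few_c (L : List (ℂ × ℂ)) (h : ∀ t ∈ L, t.1 ≠ 1) :
    (L.map fun t => t.1 - 1).prod ≠ 0 := by
  refine List.prod_ne_zero (fun h0 => ?_)
  obtain ⟨t, ht, h1⟩ := List.mem_map.1 h0
  exact h t ht (sub_eq_zero.1 h1)

private theorem Few_one (L : List (ℂ × ℂ)) (t : ℂ × ℂ) (h3 : 3 ≤ (L ++ [t]).length)
    (hL : ∀ u ∈ L ++ [t], ‖u.1‖ ≤ 1 ∧ u.1 ≠ 1) (h1 : ∀ u ∈ L, u.2 = 1) (ht : t.2 ≠ 1) :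
    WW (L ++ [t]) ≠ 0 := by
  have hblk := Few_blk L t (fun u hu => ⟨(hL u (by simp [hu])).2, h1 u hu⟩) (hL t (by simp)).2
  have hh := Few_half (L ++ [t]) hL
  have hc := Few_c (L ++ [t]) (fun u hu => (hL u hu).2)
  have h3' : (3 : ℝ) ≤ ((L ++ [t]).length : ℝ) := by exact_mod_cast h3
  unfold WW
  rw [hblk, Matrix.trace_smul, Matrix.trace_fin_two]
  generalize ((L ++ [t]).map fun u => (1 - u.1)⁻¹).sum = p at hh
  generalize ((L ++ [t]).map fun u : ℂ × ℂ => u.1 - 1).prod = c at hc
  have e : c • (Few_b p t.2 0 0 + Few_b p t.2 1 1) - 2 * c = c * ((1 - p) * (t.2 - 1)) := by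
    simp only [Few_b, Matrix.of_apply, Matrix.cons_val', Matrix.cons_val_zero, Matrix.cons_val_one,
      Matrix.cons_val_fin_one, smul_eq_mul]
    ring
  rw [e]
  refine mul_ne_zero hc (mul_ne_zero ?_ (sub_ne_zero.2 ht))
  intro h0
  have h1 : (1 - p).re = 0 := by rw [h0]; rfl
  rw [Complex.sub_re, Complex.one_re] at h1
  linarith

private theorem Few_tw (A B : List (ℂ × ℂ)) (s t : ℂ × ℂ) (h3 : 3 ≤ ((A ++ [s]) ++ (B ++ [t])).length)
    (hL : ∀ u ∈ (A ++ [s]) ++ (B ++ [t]), ‖u.1‖ ≤ 1 ∧ u.1 ≠ 1) (hA : ∀ u ∈ A, u.2 = 1)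
    (hB : ∀ u ∈ B, u.2 = 1) (hs : ‖s.2‖ = 1) (hs1 : s.2 ≠ 1) (ht : ‖t.2‖ = 1) (ht1 : t.2 ≠ 1) :
    WW ((A ++ [s]) ++ (B ++ [t])) ≠ 0 := by
  have hLA : ∀ u ∈ A ++ [s], ‖u.1‖ ≤ 1 ∧ u.1 ≠ 1 := fun u hu => hL u (List.mem_append_left _ hu)
  have hLB : ∀ u ∈ B ++ [t], ‖u.1‖ ≤ 1 ∧ u.1 ≠ 1 := fun u hu => hL u (List.mem_append_right _ hu)
  have kA := Few_blk A s (fun u hu => ⟨(hLA u (by simp [hu])).2, hA u hu⟩) (hLA s (by simp)).2
  have kB := Few_blk B t (fun u hu => ⟨(hLB u (by simp [hu])).2, hB u hu⟩) (hLB t (by simp)).2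
  have hhA := Few_half (A ++ [s]) hLA
  have hhB := Few_half (B ++ [t]) hLB
  have hcA := Few_c (A ++ [s]) (fun u hu => (hLA u hu).2)
  have hcB := Few_c (B ++ [t]) (fun u hu => (hLB u hu).2)
  have lA : (1 : ℝ) ≤ ((A ++ [s]).length : ℝ) := by
    rw [List.length_append, List.length_singleton]
    push_cast
    have := Nat.cast_nonneg (α := ℝ) A.length
    linarith
  have lB : (1 : ℝ) ≤ ((B ++ [t]).length : ℝ) := by
    rw [List.length_append, List.length_singleton]
    push_cast
    have := Nat.cast_nonneg (α := ℝ) B.length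
    linarith
  have lAB : (3 : ℝ) ≤ ((A ++ [s]).length : ℝ) + ((B ++ [t]).length : ℝ) := by
    rw [List.length_append] at h3
    exact_mod_cast h3
  have w1 : ((A ++ [s] ++ (B ++ [t])).map TD).prod = ((A ++ [s]).map TD).prod *
      ((B ++ [t]).map TD).prod := by rw [List.map_append, List.prod_append]
  have w2 : ((A ++ [s] ++ (B ++ [t])).map fun u : ℂ × ℂ => u.1 - 1).prod =
      ((A ++ [s]).map fun u : ℂ × ℂ => u.1 - 1).prod *
      ((B ++ [t]).map fun u : ℂ × ℂ => u.1 - 1).prod := by rw [List.map_append, List.prod_append]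
  unfold WW
  rw [w1, w2, kA, kB]
  generalize ((A ++ [s]).map fun u => (1 - u.1)⁻¹).sum = p at hhA
  generalize ((B ++ [t]).map fun u => (1 - u.1)⁻¹).sum = p' at hhB
  generalize ((A ++ [s]).map fun u : ℂ × ℂ => u.1 - 1).prod = c at hcA
  generalize ((B ++ [t]).map fun u : ℂ × ℂ => u.1 - 1).prod = c' at hcB
  rw [Matrix.smul_mul, Matrix.mul_smul, smul_smul, Matrix.trace_smul, Matrix.trace_fin_two,
    Matrix.mul_apply, Matrix.mul_apply, Fin.sum_univ_two, Fin.sum_univ_two]
  have e : (c * c') • (Few_b p s.2 0 0 * Few_b p' t.2 0 0 + Few_b p s.2 0 1 * Few_b p' t.2 1 0 +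
      (Few_b p s.2 1 0 * Few_b p' t.2 0 1 + Few_b p s.2 1 1 * Few_b p' t.2 1 1)) - 2 * (c * c') =
      c * c' * ((s.2 * t.2 - 1) * (1 - p - p') + p * p' * (s.2 - 1) * (t.2 - 1)) := by
    simp only [Few_b, Matrix.of_apply, Matrix.cons_val', Matrix.cons_val_zero, Matrix.cons_val_one,
      Matrix.cons_val_fin_one, smul_eq_mul]
    ring
  rw [e]
  exact mul_ne_zero (mul_ne_zero hcA hcB)
    (Few_two p p' s.2 t.2 (by linarith) (by linarith) (by linarith) hs hs1 ht ht1)

theorem thm_Few : St_Few := by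
  intro L h3 hL hS hor
  by_cases h1 : ∃ t ∈ L, t.1 = 1
  · exact Few_case1 L hL hS h1
  have hr : ∀ t ∈ L, t.1 ≠ 1 := fun t ht h => h1 ⟨t, ht, h⟩
  have hlen : (L.filter fun t => t.2 ≠ 1).length ≤ 2 := hor.resolve_left h1
  obtain ⟨t, ht, ht2⟩ := hS.1
  have hmem : t ∈ L.filter fun t => t.2 ≠ 1 := List.mem_filter.2 ⟨ht, by simpa using ht2⟩
  cases hf : L.filter fun t => t.2 ≠ 1 with
  | nil =>
    rw [hf] at hmem
    simp at hmem
  | cons a l =>
    obtain ⟨l1, l2, rfl, k1, k2, k3⟩ := List.filter_eq_cons_iff.1 hf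
    have k1' : ∀ u ∈ l1, u.2 = 1 := fun u hu => by simpa using k1 u hu
    have k2' : a.2 ≠ 1 := by simpa using k2
    cases l with
    | nil =>
      have k3' : ∀ u ∈ l2, u.2 = 1 := fun u hu => by
        have := List.filter_eq_nil_iff.1 k3 u hu
        simpa using this
      have e1 : l1 ++ a :: l2 = (l1 ++ [a]) ++ l2 := by simp
      have e2 : l2 ++ (l1 ++ [a]) = (l2 ++ l1) ++ [a] := by simp
      rw [e1, Few_comm, e2]
      refine Few_one (l2 ++ l1) a ?_ ?_ ?_ k2'
      · simp only [List.length_append, List.length_cons, List.length_nil] at h3 ⊢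
        omega
      · intro u hu
        have hu' : u ∈ l1 ++ a :: l2 := by
          simp only [List.mem_append, List.mem_cons, List.not_mem_nil, or_false] at hu ⊢
          tauto
        exact ⟨(hL u hu').1, hr u hu'⟩
      · intro u hu
        rcases List.mem_append.1 hu with hu | hu
        · exact k3' u hu
        · exact k1' u hu
    | cons b l' =>
      obtain ⟨l3, l4, rfl, m1, m2, m3⟩ := List.filter_eq_cons_iff.1 k3
      have m1' : ∀ u ∈ l3, u.2 = 1 := fun u hu => by simpa using m1 u hu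
      have m2' : b.2 ≠ 1 := by simpa using m2
      have hl' : l' = [] := by
        rw [hf] at hlen
        simp only [List.length_cons] at hlen
        exact List.length_eq_zero_iff.1 (by omega)
      rw [hl'] at m3
      have m3' : ∀ u ∈ l4, u.2 = 1 := fun u hu => by
        have := List.filter_eq_nil_iff.1 m3 u hu
        simpa using this
      have e1 : l1 ++ a :: (l3 ++ b :: l4) = (l1 ++ [a] ++ l3 ++ [b]) ++ l4 := by simp
      have e2 : l4 ++ (l1 ++ [a] ++ l3 ++ [b]) = ((l4 ++ l1) ++ [a]) ++ (l3 ++ [b]) := by simp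
      rw [e1, Few_comm, e2]
      have hin : ∀ u ∈ ((l4 ++ l1) ++ [a]) ++ (l3 ++ [b]), u ∈ l1 ++ a :: (l3 ++ b :: l4) := by
        intro u hu
        simp only [List.mem_append, List.mem_cons, List.not_mem_nil, or_false] at hu ⊢
        tauto
      refine Few_tw (l4 ++ l1) l3 a b ?_ ?_ ?_ m1' (hL a (by simp)).2 k2' (hL b (by simp)).2 m2'
      · simp only [List.length_append, List.length_cons, List.length_nil] at h3 ⊢
        omega
      · intro u hu
        exact ⟨(hL u (hin u hu)).1, hr u (hin u hu)⟩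
      · intro u hu
        rcases List.mem_append.1 hu with hu | hu
        · exact m3' u hu
        · exact k1' u hu

end Pool.Agent.WHL
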