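import Pool.Agent.WHL.Defs

/-!
# WHL, module F: the polynomial of the spanning sets of a wheel is a trace
-/

set_option autoImplicit false

open Submodule

namespace Pool.Agent.WHL

open Pool.Agent.SPT (PP Spans)

set_option linter.unusedSectionVars false

section

variable {V : Type} [AddCommGroup V] [Module (ZMod 2) V] [DecidableEq V]

/-- the span of the vectors of a list -/
private def spl : List (V × ℂ) → Submodule (ZMod 2) V
  | [] => ⊥
  | a :: l => span (ZMod 2) {a.1} ⊔ spl l

open Classical in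
/-- the polynomial of a list of pairs (vector, weight) -/
private noncomputable def PPL : List (V × ℂ) → Submodule (ZMod 2) V → ℂ
  | [], _ => 1
  | a :: l, K => (if a.1 ∈ K ⊔ spl l then PPL l K else 0) +
      (a.2 - 1) * PPL l (K ⊔ span (ZMod 2) {a.1})

private theorem aself (x : V) : x + x = 0 := ZModModule.add_self x

private theorem PPL_pos {a : V × ℂ} {l : List (V × ℂ)} {K : Submodule (ZMod 2) V}
    (h : a.1 ∈ K ⊔ spl l) :
    PPL (a :: l) K = PPL l K + (a.2 - 1) * PPL l (K ⊔ span (ZMod 2) {a.1}) := by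
  rw [PPL, if_pos h]

private theorem PPL_neg {a : V × ℂ} {l : List (V × ℂ)} {K : Submodule (ZMod 2) V}
    (h : a.1 ∉ K ⊔ spl l) :
    PPL (a :: l) K = (a.2 - 1) * PPL l (K ⊔ span (ZMod 2) {a.1}) := by
  rw [PPL, if_neg h, zero_add]

private theorem sup_of_mem {K : Submodule (ZMod 2) V} {v : V} (h : v ∈ K) :
    K ⊔ span (ZMod 2) {v} = K := by
  rw [sup_eq_left, span_singleton_le_iff_mem]
  exact h

private theorem PPL_loop {a : V × ℂ} {l : List (V × ℂ)} {K : Submodule (ZMod 2) V}
    (h : a.1 ∈ K) : PPL (a :: l) K = a.2 * PPL l K := by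
  rw [PPL_pos (mem_sup_left h), sup_of_mem h]
  ring

/-- vectors may be changed modulo `K` -/
private theorem PPL_congr {l l' : List (V × ℂ)} :
    ∀ K : Submodule (ZMod 2) V, List.Forall₂ (fun a b => a.1 + b.1 ∈ K ∧ a.2 = b.2) l l' →
      K ⊔ spl l = K ⊔ spl l' ∧ PPL l K = PPL l' K := by
  induction l generalizing l' with
  | nil =>
    intro K h
    cases h
    exact ⟨rfl, rfl⟩
  | cons a l ih =>
    intro K h
    cases h with
    | cons hab hl =>
      rename_i b l'
      obtain ⟨h1, h2⟩ := ih K hl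
      have h3 : K ⊔ span (ZMod 2) {a.1} = K ⊔ span (ZMod 2) {b.1} :=
        Pool.Agent.SPT.ss_par K a.1 b.1 hab.1
      obtain ⟨-, h4⟩ := ih (K ⊔ span (ZMod 2) {a.1})
        (hl.imp fun x y hxy => ⟨mem_sup_left hxy.1, hxy.2⟩)
      constructor
      · show K ⊔ (span (ZMod 2) {a.1} ⊔ spl l) = K ⊔ (span (ZMod 2) {b.1} ⊔ spl l')
        rw [← sup_assoc, h3, ← sup_assoc, sup_right_comm, h1, sup_right_comm]
      · have h5 : a.1 ∈ K ⊔ spl l ↔ b.1 ∈ K ⊔ spl l' := by
          rw [← h1]
          constructor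
          · intro h
            have : b.1 = a.1 + (a.1 + b.1) := by rw [← add_assoc, aself, zero_add]
            rw [this]
            exact add_mem h (mem_sup_left hab.1)
          · intro h
            have : a.1 = (a.1 + b.1) + b.1 := by rw [add_assoc, aself, add_zero]
            rw [this]
            exact add_mem (mem_sup_left hab.1) h
        by_cases h6 : a.1 ∈ K ⊔ spl l
        · rw [PPL_pos h6, PPL_pos (h5.1 h6), h2, h4, h3, hab.2]
        · rw [PPL_neg h6, PPL_neg (fun h => h6 (h5.2 h)), h4, h3, hab.2]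

private theorem PPL_swap (a b : V × ℂ) (l : List (V × ℂ)) (K : Submodule (ZMod 2) V) :
    PPL (a :: b :: l) K = PPL (b :: a :: l) K := by
  classical
  have e1 : K ⊔ spl (b :: l) = (K ⊔ spl l) ⊔ span (ZMod 2) {b.1} := by
    show K ⊔ (span (ZMod 2) {b.1} ⊔ spl l) = _
    rw [← sup_assoc, sup_right_comm]
  have e2 : K ⊔ spl (a :: l) = (K ⊔ spl l) ⊔ span (ZMod 2) {a.1} := by
    show K ⊔ (span (ZMod 2) {a.1} ⊔ spl l) = _
    rw [← sup_assoc, sup_right_comm]
  have e3 : K ⊔ span (ZMod 2) {a.1} ⊔ spl l = (K ⊔ spl l) ⊔ span (ZMod 2) {a.1} := sup_right_comm ..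
  have e4 : K ⊔ span (ZMod 2) {b.1} ⊔ spl l = (K ⊔ spl l) ⊔ span (ZMod 2) {b.1} := sup_right_comm ..
  have e5 : K ⊔ span (ZMod 2) {b.1} ⊔ span (ZMod 2) {a.1} =
      K ⊔ span (ZMod 2) {a.1} ⊔ span (ZMod 2) {b.1} := sup_right_comm ..
  obtain ⟨Q, hQ⟩ : ∃ Q, K ⊔ spl l = Q := ⟨_, rfl⟩
  simp only [PPL]
  rw [e1, e2, e3, e4, e5, hQ]
  by_cases ha : a.1 ∈ Q
  · by_cases hb : b.1 ∈ Q
    · rw [sup_of_mem ha, sup_of_mem hb]
      simp only [ha, hb, if_true]
      ring
    · rw [sup_of_mem ha]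
      have h1 : a.1 ∈ Q ⊔ span (ZMod 2) {b.1} := mem_sup_left ha
      simp only [hb, h1, if_true, if_false]
      ring
  · by_cases hb : b.1 ∈ Q
    · rw [sup_of_mem hb]
      have h1 : b.1 ∈ Q ⊔ span (ZMod 2) {a.1} := mem_sup_left hb
      simp only [ha, h1, if_true, if_false]
      ring
    · have h2 : a.1 ∈ Q ⊔ span (ZMod 2) {b.1} ↔ b.1 ∈ Q ⊔ span (ZMod 2) {a.1} := by
        rw [Pool.Agent.SPT.mem_ss, Pool.Agent.SPT.mem_ss, add_comm b.1 a.1]
        simp [ha, hb]
      by_cases h3 : a.1 ∈ Q ⊔ span (ZMod 2) {b.1}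
      · have h4 := h2.1 h3
        simp only [ha, hb, h3, h4, if_true, if_false]
        ring
      · have h4 : b.1 ∉ Q ⊔ span (ZMod 2) {a.1} := fun h => h3 (h2.2 h)
        simp only [h3, h4, if_false]
        ring

/-- parallel elements -/
private theorem PPL_par (v : V) (y w : ℂ) (l : List (V × ℂ)) (K : Submodule (ZMod 2) V) :
    PPL ((v, y) :: (v, w) :: l) K = PPL ((v, y * w) :: l) K := by
  have h1 : v ∈ K ⊔ spl ((v, w) :: l) :=
    mem_sup_right (mem_sup_left (mem_span_singleton_self v))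
  have h2 : v ∈ K ⊔ span (ZMod 2) {v} := mem_sup_right (mem_span_singleton_self v)
  rw [PPL_pos (a := (v, y)) h1, PPL_loop (a := (v, w)) h2]
  by_cases h3 : v ∈ K ⊔ spl l
  · rw [PPL_pos (a := (v, w)) h3, PPL_pos (a := (v, y * w)) h3]
    ring
  · rw [PPL_neg (a := (v, w)) h3, PPL_neg (a := (v, y * w)) h3]
    ring

private theorem PPL_cons {a : V × ℂ} {l l' : List (V × ℂ)} (hs : spl l = spl l')
    (h : ∀ K, PPL l K = PPL l' K) (K : Submodule (ZMod 2) V) :
    PPL (a :: l) K = PPL (a :: l') K := by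
  rw [PPL, PPL, hs, h, h]

end

/-! ### Fans -/

section

variable {V : Type} [AddCommGroup V] [Module (ZMod 2) V] [DecidableEq V] (e : ℕ → V)
  (r z : ℕ → ℂ)

/-- the fan -/
private def Fan : ℕ → ℂ → List (V × ℂ)
  | 0, w => [(e 0, w)]
  | j + 1, w => (e (j + 1), z (j + 1)) :: (e j + e (j + 1), r (j + 1)) :: Fan j w

/-- the span of the first vectors -/
private def Sp (j : ℕ) : Submodule (ZMod 2) V := span (ZMod 2) (e '' Set.Iio j)

/-- independence modulo `K` -/
private def Ind (K : Submodule (ZMod 2) V) (n : ℕ) : Prop := ∀ i < n, e i ∉ K ⊔ Sp e i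

/-- the product of the transfer matrices -/
private noncomputable def MM : ℕ → Matrix (Fin 2) (Fin 2) ℂ
  | 0 => 1
  | j + 1 => MM j * TD (r (j + 1), z (j + 1))

/-- the product of the `r - 1` -/
private noncomputable def RR : ℕ → ℂ
  | 0 => 1
  | j + 1 => RR j * (r (j + 1) - 1)

variable {e r z}

private theorem mem_Sp {i j : ℕ} (h : i < j) : e i ∈ Sp e j := subset_span ⟨i, h, rfl⟩

private theorem Sp_mono {i j : ℕ} (h : i ≤ j) : Sp e i ≤ Sp e j :=
  span_mono (Set.image_mono fun _ hx => lt_of_lt_of_le hx h)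

private theorem Sp_succ (j : ℕ) : Sp e (j + 1) = span (ZMod 2) {e j} ⊔ Sp e j := by
  unfold Sp
  rw [← span_union]
  congr 1
  ext v
  constructor
  · rintro ⟨i, hi, rfl⟩
    rcases Nat.lt_succ_iff_lt_or_eq.1 hi with h | h
    · exact Or.inr ⟨i, h, rfl⟩
    · rw [h]
      exact Or.inl rfl
  · rintro (h | ⟨i, hi, rfl⟩)
    · rw [Set.mem_singleton_iff.1 h]
      exact ⟨j, Nat.lt_succ_self j, rfl⟩
    · exact ⟨i, Nat.lt_succ_of_lt hi, rfl⟩

private theorem spl_Fan (j : ℕ) (w : ℂ) : spl (Fan e r z j w) = Sp e (j + 1) := by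
  induction j with
  | zero =>
    show span (ZMod 2) {e 0} ⊔ ⊥ = Sp e 1
    rw [Sp_succ]
    congr 1
    unfold Sp
    have : (Set.Iio 0 : Set ℕ) = ∅ := by
      ext i
      simp
    rw [this, Set.image_empty, span_empty]
  | succ j ih =>
    show span (ZMod 2) {e (j + 1)} ⊔ (span (ZMod 2) {e j + e (j + 1)} ⊔ spl (Fan e r z j w)) = _
    rw [ih, Sp_succ (j + 1), sup_left_comm]
    refine sup_eq_right.2 ?_
    rw [span_singleton_le_iff_mem]
    exact add_mem (mem_sup_right (mem_Sp (Nat.lt_succ_self j)))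
      (mem_sup_left (mem_span_singleton_self _))

private theorem Ind.step {K : Submodule (ZMod 2) V} {j : ℕ} (h : Ind e K (j + 1)) {v : V}
    (hv : e j + v ∈ Sp e j) : Ind e (K ⊔ span (ZMod 2) {v}) j := by
  intro i hi hi'
  rw [sup_right_comm, Pool.Agent.SPT.mem_ss] at hi'
  rcases hi' with h1 | h1
  · exact h i (by omega) h1
  · apply h j (Nat.lt_succ_self j)
    have h2 : e j = (e j + v) + (e i + (e i + v)) := by
      have : (e i + (e i + v)) = v := by rw [← add_assoc, aself, zero_add]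
      rw [this, add_assoc, aself, add_zero]
    rw [h2]
    exact add_mem (mem_sup_right hv) (add_mem (mem_sup_right (mem_Sp hi))
      ((sup_le_sup_left (Sp_mono hi.le) K) h1))

private theorem Ind.mono {K : Submodule (ZMod 2) V} {i j : ℕ} (h : Ind e K j) (hij : i ≤ j) :
    Ind e K i := fun k hk => h k (lt_of_lt_of_le hk hij)

/-- the fan, not contracted and contracted -/
private theorem PPL_Fan (w : ℂ) (j : ℕ) : ∀ K : Submodule (ZMod 2) V, Ind e K (j + 1) →
    PPL (Fan e r z j w) K = w * (MM r z j 0 0 + MM r z j 0 1) -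
      (MM r z j 1 0 + MM r z j 1 1) ∧
    PPL (Fan e r z j w) (K ⊔ span (ZMod 2) {e j}) = w * MM r z j 0 0 - MM r z j 1 0 := by
  induction j with
  | zero =>
    intro K hK
    have h0 : e 0 ∉ K := fun h => hK 0 (Nat.zero_lt_one) (mem_sup_left h)
    have h1 : e 0 ∉ K ⊔ (⊥ : Submodule (ZMod 2) V) := by
      rw [sup_bot_eq]
      exact h0
    have h2 : e 0 ∈ K ⊔ span (ZMod 2) {e 0} := mem_sup_right (mem_span_singleton_self _)
    constructor
    · show PPL [(e 0, w)] K = w * ((1 : Matrix (Fin 2) (Fin 2) ℂ) 0 0 +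
        (1 : Matrix (Fin 2) (Fin 2) ℂ) 0 1) - ((1 : Matrix (Fin 2) (Fin 2) ℂ) 1 0 +
        (1 : Matrix (Fin 2) (Fin 2) ℂ) 1 1)
      rw [PPL_neg (a := (e 0, w)) (l := []) h1]
      simp [PPL]
    · show PPL [(e 0, w)] (K ⊔ span (ZMod 2) {e 0}) = w * (1 : Matrix (Fin 2) (Fin 2) ℂ) 0 0 -
        (1 : Matrix (Fin 2) (Fin 2) ℂ) 1 0
      rw [PPL_loop (a := (e 0, w)) (l := []) h2]
      simp [PPL]
  | succ j ih =>
    intro K hK
    have hE : e (j + 1) ∉ K ⊔ Sp e (j + 1) := hK (j + 1) (Nat.lt_succ_self _)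
    -- first contraction
    have k1 : Ind e (K ⊔ span (ZMod 2) {e j + e (j + 1)}) (j + 1) := hK.step (by
      have : e (j + 1) + (e j + e (j + 1)) = e j := by
        rw [add_comm (e j), ← add_assoc, aself, zero_add]
      rw [this]
      exact mem_Sp (Nat.lt_succ_self j))
    have k2 : Ind e (K ⊔ span (ZMod 2) {e (j + 1)}) (j + 1) := hK.step (by
      rw [aself]
      exact zero_mem _)
    have q1 : PPL ((e j + e (j + 1), r (j + 1)) :: Fan e r z j w) K =
        (r (j + 1) - 1) * PPL (Fan e r z j w) (K ⊔ span (ZMod 2) {e j + e (j + 1)}) := by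
      refine PPL_neg (a := (e j + e (j + 1), r (j + 1))) fun h => hE ?_
      rw [spl_Fan] at h
      have h1 : e (j + 1) = e j + (e j + e (j + 1)) := by rw [← add_assoc, aself, zero_add]
      rw [h1]
      exact add_mem (mem_sup_right (mem_Sp (Nat.lt_succ_self j))) h
    have q2 : PPL ((e j + e (j + 1), r (j + 1)) :: Fan e r z j w)
        (K ⊔ span (ZMod 2) {e (j + 1)}) =
        PPL (Fan e r z j w) (K ⊔ span (ZMod 2) {e (j + 1)}) + (r (j + 1) - 1) *
          PPL (Fan e r z j w) (K ⊔ span (ZMod 2) {e (j + 1)} ⊔ span (ZMod 2) {e j}) := by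
      have h1 : e j + e (j + 1) ∈ K ⊔ span (ZMod 2) {e (j + 1)} ⊔ spl (Fan e r z j w) := by
        rw [spl_Fan]
        exact add_mem (mem_sup_right (mem_Sp (Nat.lt_succ_self j)))
          (mem_sup_left (mem_sup_right (mem_span_singleton_self _)))
      rw [PPL_pos (a := (e j + e (j + 1), r (j + 1))) h1]
      have h2 : K ⊔ span (ZMod 2) {e (j + 1)} ⊔ span (ZMod 2) {e j + e (j + 1)} =
          K ⊔ span (ZMod 2) {e (j + 1)} ⊔ span (ZMod 2) {e j} := by
        refine Pool.Agent.SPT.ss_par _ _ _ ?_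
        have h3 : e j + e (j + 1) + e j = e (j + 1) := by
          rw [add_comm (e j), add_assoc, aself, add_zero]
        rw [h3]
        exact mem_sup_right (mem_span_singleton_self _)
      rw [h2]
    have a1 := (ih _ k1).1
    have a2 := (ih _ k2).1
    have a3 := (ih _ k2).2
    rw [a1] at q1
    rw [a2, a3] at q2
    have m1 : MM r z (j + 1) = MM r z j * TD (r (j + 1), z (j + 1)) := rfl
    constructor
    · have h1 : e (j + 1) ∈ K ⊔ spl ((e j + e (j + 1), r (j + 1)) :: Fan e r z j w) := by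
        show e (j + 1) ∈ K ⊔ (span (ZMod 2) {e j + e (j + 1)} ⊔ spl (Fan e r z j w))
        rw [spl_Fan]
        have h2 : (e j + e (j + 1)) + e j = e (j + 1) := by
          rw [add_comm (e j), add_assoc, aself, add_zero]
        have h3 : (e j + e (j + 1)) + e j ∈
            K ⊔ (span (ZMod 2) {e j + e (j + 1)} ⊔ Sp e (j + 1)) :=
          add_mem (mem_sup_right (mem_sup_left (mem_span_singleton_self _)))
            (mem_sup_right (mem_sup_right (mem_Sp (Nat.lt_succ_self j))))
        rwa [h2] at h3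
      show PPL ((e (j + 1), z (j + 1)) :: (e j + e (j + 1), r (j + 1)) :: Fan e r z j w) K = _
      rw [PPL_pos (a := (e (j + 1), z (j + 1))) h1, q1, q2, m1]
      simp only [Matrix.mul_apply, Fin.sum_univ_two, TD, Matrix.of_apply, Matrix.cons_val',
        Matrix.cons_val_zero, Matrix.cons_val_one, Matrix.cons_val_fin_one]
      ring
    · show PPL ((e (j + 1), z (j + 1)) :: (e j + e (j + 1), r (j + 1)) :: Fan e r z j w)
        (K ⊔ span (ZMod 2) {e (j + 1)}) = _
      rw [PPL_loop (a := (e (j + 1), z (j + 1)))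
        (mem_sup_right (mem_span_singleton_self _)), q2, m1]
      simp only [Matrix.mul_apply, Fin.sum_univ_two, TD, Matrix.of_apply, Matrix.cons_val',
        Matrix.cons_val_zero, Matrix.cons_val_one, Matrix.cons_val_fin_one]
      ring

/-- an additional copy of the first vector -/
private theorem absorb (y : ℂ) (j : ℕ) (w : ℂ) : ∀ K : Submodule (ZMod 2) V,
    PPL ((e 0, y) :: Fan e r z j w) K = PPL (Fan e r z j (y * w)) K := by
  induction j with
  | zero => exact fun K => PPL_par (e 0) y w [] K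
  | succ j ih =>
    intro K
    have hs : spl ((e 0, y) :: Fan e r z j w) = spl (Fan e r z j (y * w)) := by
      show span (ZMod 2) {e 0} ⊔ spl (Fan e r z j w) = _
      rw [spl_Fan, spl_Fan]
      refine sup_eq_right.2 ?_
      rw [span_singleton_le_iff_mem]
      exact mem_Sp (Nat.succ_pos j)
    have hs1 : spl ((e j + e (j + 1), r (j + 1)) :: (e 0, y) :: Fan e r z j w) =
        spl ((e j + e (j + 1), r (j + 1)) :: Fan e r z j (y * w)) := by
      show span (ZMod 2) {e j + e (j + 1)} ⊔ spl ((e 0, y) :: Fan e r z j w) = _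
      rw [hs]
      rfl
    have hs2 : spl ((e 0, y) :: (e j + e (j + 1), r (j + 1)) :: Fan e r z j w) =
        spl ((e j + e (j + 1), r (j + 1)) :: (e 0, y) :: Fan e r z j w) := by
      show span (ZMod 2) {e 0} ⊔ (span (ZMod 2) {e j + e (j + 1)} ⊔ spl (Fan e r z j w)) =
        span (ZMod 2) {e j + e (j + 1)} ⊔ (span (ZMod 2) {e 0} ⊔ spl (Fan e r z j w))
      rw [sup_left_comm]
    show PPL ((e 0, y) :: (e (j + 1), z (j + 1)) :: (e j + e (j + 1), r (j + 1)) ::
      Fan e r z j w) K = PPL ((e (j + 1), z (j + 1)) :: (e j + e (j + 1), r (j + 1)) ::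
      Fan e r z j (y * w)) K
    rw [PPL_swap, PPL_cons hs2 (fun K => PPL_swap _ _ _ K) K,
      PPL_cons hs1 (fun K => PPL_cons hs ih K) K]

private theorem forall_refl {K : Submodule (ZMod 2) V} (l : List (V × ℂ)) :
    List.Forall₂ (fun a b => a.1 + b.1 ∈ K ∧ a.2 = b.2) l l := by
  refine List.forall₂_same.2 fun a _ => ⟨?_, rfl⟩
  rw [aself]
  exact zero_mem _

/-- the wheel -/
private theorem PPL_wheel (j : ℕ) : ∀ (t w : ℂ) (K : Submodule (ZMod 2) V), Ind e K (j + 1) →
    PPL ((e j + e 0, t) :: Fan e r z j w) K =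
      (TD (t, w) * MM r z j).trace - 2 * ((t - 1) * RR r j) := by
  induction j with
  | zero =>
    intro t w K hK
    rw [PPL_loop (a := (e 0 + e 0, t)) (by
      show e 0 + e 0 ∈ K
      rw [aself]
      exact zero_mem _)]
    rw [(PPL_Fan w 0 K hK).1]
    show t * (w * ((1 : Matrix (Fin 2) (Fin 2) ℂ) 0 0 + (1 : Matrix (Fin 2) (Fin 2) ℂ) 0 1) -
      ((1 : Matrix (Fin 2) (Fin 2) ℂ) 1 0 + (1 : Matrix (Fin 2) (Fin 2) ℂ) 1 1)) =
      (TD (t, w) * 1).trace - 2 * ((t - 1) * 1)
    rw [mul_one, Matrix.trace_fin_two]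
    simp only [TD, Matrix.of_apply, Matrix.cons_val', Matrix.cons_val_zero, Matrix.cons_val_one,
      Matrix.cons_val_fin_one, Matrix.one_apply_eq, ne_eq, zero_ne_one, not_false_eq_true,
      Matrix.one_apply_ne, one_ne_zero]
    ring
  | succ j ih =>
    intro t w K hK
    have h1 : e (j + 1) + e 0 ∈ K ⊔ spl (Fan e r z (j + 1) w) := by
      rw [spl_Fan]
      exact add_mem (mem_sup_right (mem_Sp (Nat.lt_succ_self _)))
        (mem_sup_right (mem_Sp (Nat.succ_pos _)))
    have k1 : Ind e (K ⊔ span (ZMod 2) {e (j + 1) + e 0}) (j + 1) := hK.step (by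
      rw [← add_assoc, aself, zero_add]
      exact mem_Sp (Nat.succ_pos j))
    have h2 : PPL (Fan e r z (j + 1) w) (K ⊔ span (ZMod 2) {e (j + 1) + e 0}) =
        PPL ((e j + e 0, r (j + 1)) :: Fan e r z j (z (j + 1) * w))
          (K ⊔ span (ZMod 2) {e (j + 1) + e 0}) := by
      have h3 : PPL (Fan e r z (j + 1) w) (K ⊔ span (ZMod 2) {e (j + 1) + e 0}) =
          PPL ((e 0, z (j + 1)) :: (e j + e 0, r (j + 1)) :: Fan e r z j w)
            (K ⊔ span (ZMod 2) {e (j + 1) + e 0}) := by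
        have h4 : e j + e (j + 1) + (e j + e 0) = e (j + 1) + e 0 := by
          rw [add_comm (e j), add_assoc, ← add_assoc (e j), aself, zero_add]
        have hF : List.Forall₂ (fun a b : V × ℂ => a.1 + b.1 ∈
            K ⊔ span (ZMod 2) {e (j + 1) + e 0} ∧ a.2 = b.2)
            ((e (j + 1), z (j + 1)) :: (e j + e (j + 1), r (j + 1)) :: Fan e r z j w)
            ((e 0, z (j + 1)) :: (e j + e 0, r (j + 1)) :: Fan e r z j w) := by
          refine List.Forall₂.cons ⟨mem_sup_right (mem_span_singleton_self _), rfl⟩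
            (List.Forall₂.cons ⟨?_, rfl⟩ (forall_refl (Fan e r z j w)))
          show e j + e (j + 1) + (e j + e 0) ∈ _
          rw [h4]
          exact mem_sup_right (mem_span_singleton_self _)
        exact (PPL_congr _ hF).2
      rw [h3, PPL_swap]
      refine PPL_cons ?_ (absorb _ j w) _
      show span (ZMod 2) {e 0} ⊔ spl (Fan e r z j w) = _
      rw [spl_Fan, spl_Fan]
      refine sup_eq_right.2 ?_
      rw [span_singleton_le_iff_mem]
      exact mem_Sp (Nat.succ_pos j)
    rw [PPL_pos (a := (e (j + 1) + e 0, t)) h1, h2, (PPL_Fan w (j + 1) K hK).1,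
      ih _ _ _ k1]
    have m1 : MM r z (j + 1) = MM r z j * TD (r (j + 1), z (j + 1)) := rfl
    have m2 : RR r (j + 1) = RR r j * (r (j + 1) - 1) := rfl
    rw [m1, m2, Matrix.trace_fin_two, Matrix.trace_fin_two]
    simp only [Matrix.mul_apply, Fin.sum_univ_two, TD, Matrix.of_apply, Matrix.cons_val',
      Matrix.cons_val_zero, Matrix.cons_val_one, Matrix.cons_val_fin_one]
    ring

end

/-! ### Finite sets -/

section

variable {V : Type} [AddCommGroup V] [Module (ZMod 2) V] [DecidableEq V]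

private theorem spl_map (x : V → ℂ) (l : List V) :
    spl (l.map fun v => (v, x v)) = span (ZMod 2) ((l.toFinset : Finset V) : Set V) := by
  induction l with
  | nil =>
    show (⊥ : Submodule (ZMod 2) V) = _
    simp
  | cons v l ih =>
    show span (ZMod 2) {v} ⊔ spl (l.map fun v => (v, x v)) = _
    rw [ih, List.toFinset_cons, Finset.coe_insert, span_insert]

private theorem PP_list (x : V → ℂ) (l : List V) (hl : l.Nodup) :
    ∀ K : Submodule (ZMod 2) V, PP l.toFinset K x = PPL (l.map fun v => (v, x v)) K := by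
  induction l with
  | nil =>
    intro K
    show PP ∅ K x = 1
    unfold PP
    rw [Finset.powerset_empty, Finset.sum_singleton, Finset.prod_empty, if_pos]
    rfl
  | cons v l ih =>
    intro K
    obtain ⟨hv, hl'⟩ := List.nodup_cons.1 hl
    have hv' : v ∉ l.toFinset := fun h => hv (List.mem_toFinset.1 h)
    have ih' := ih hl'
    rw [List.toFinset_cons, List.map_cons]
    by_cases h : v ∈ K ⊔ span (ZMod 2) ((l.toFinset : Finset V) : Set V)
    · rw [PPL_pos (a := (v, x v)) (by rw [spl_map]; exact h), ← ih', ← ih']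
      rw [Pool.Agent.SPT.PP_eq, Pool.Agent.SPT.PP_eq, Pool.Agent.SPT.PP_eq,
        Pool.Agent.SPT.SS_insert _ x v hv']
      have hX : K ⊔ span (ZMod 2) ((insert v l.toFinset : Finset V) : Set V) =
          K ⊔ span (ZMod 2) ((l.toFinset : Finset V) : Set V) := by
        rw [Pool.Agent.SPT.ss_insert', sup_of_mem h]
      congr 1
      · refine Pool.Agent.SPT.SS_congr _ x _ _ fun W _ => ?_
        unfold Spans
        rw [hX]
      · congr 1
        refine Pool.Agent.SPT.SS_congr _ x _ _ fun W _ => ?_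
        unfold Spans
        rw [Pool.Agent.SPT.ss_insert, Pool.Agent.SPT.ss_insert]
    · rw [PPL_neg (a := (v, x v)) (by rw [spl_map]; exact h), ← ih']
      exact Pool.Agent.SPT.PP_coloop _ K x v h

/-- the vectors of the fan -/
private def Fv (e : ℕ → V) : ℕ → List V
  | 0 => [e 0]
  | j + 1 => e (j + 1) :: (e j + e (j + 1)) :: Fv e j

private theorem Fv_map (e : ℕ → V) (x : V → ℂ) (j : ℕ) :
    (Fv e j).map (fun v => (v, x v)) =
      Fan e (fun i => x (e (i - 1) + e i)) (fun i => x (e i)) j (x (e 0)) := by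
  induction j with
  | zero => rfl
  | succ j ih =>
    show (e (j + 1), x (e (j + 1))) :: (e j + e (j + 1), x (e j + e (j + 1))) ::
      (Fv e j).map (fun v => (v, x v)) = _
    rw [ih]
    rfl

private theorem mem_Fv (e : ℕ → V) (j : ℕ) (v : V) :
    v ∈ Fv e j ↔ (∃ i ≤ j, v = e i) ∨ ∃ i < j, v = e i + e (i + 1) := by
  induction j with
  | zero =>
    show v ∈ [e 0] ↔ _
    rw [List.mem_singleton]
    constructor
    · intro h
      exact Or.inl ⟨0, le_rfl, h⟩
    · rintro (⟨i, hi, h⟩ | ⟨i, hi, -⟩)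
      · rw [h, Nat.le_zero.1 hi]
      · omega
  | succ j ih =>
    show v ∈ e (j + 1) :: (e j + e (j + 1)) :: Fv e j ↔ _
    rw [List.mem_cons, List.mem_cons, ih]
    constructor
    · rintro (h | h | ⟨i, hi, h⟩ | ⟨i, hi, h⟩)
      · exact Or.inl ⟨j + 1, le_rfl, h⟩
      · exact Or.inr ⟨j, Nat.lt_succ_self j, h⟩
      · exact Or.inl ⟨i, by omega, h⟩
      · exact Or.inr ⟨i, by omega, h⟩
    · rintro (⟨i, hi, h⟩ | ⟨i, hi, h⟩)
      · rcases Nat.lt_or_ge i (j + 1) with h1 | h1
        · exact Or.inr (Or.inr (Or.inl ⟨i, by omega, h⟩))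
        · have : i = j + 1 := by omega
          rw [this] at h
          exact Or.inl h
      · rcases Nat.lt_or_ge i j with h1 | h1
        · exact Or.inr (Or.inr (Or.inr ⟨i, h1, h⟩))
        · have : i = j := by omega
          rw [this] at h
          exact Or.inr (Or.inl h)

private theorem Fv_sub {e : ℕ → V} {j : ℕ} {v : V} (h : v ∈ Fv e j) : v ∈ Sp e (j + 1) := by
  rcases (mem_Fv e j v).1 h with ⟨i, hi, rfl⟩ | ⟨i, hi, rfl⟩
  · exact mem_Sp (by omega)
  · exact add_mem (mem_Sp (by omega)) (mem_Sp (by omega))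

private theorem Ind.not_mem {e : ℕ → V} {K : Submodule (ZMod 2) V} {n : ℕ} (h : Ind e K n) {i : ℕ}
    (hi : i < n) : e i ∉ Sp e i := fun h' => h i hi (mem_sup_right h')

private theorem Fv_nodup {e : ℕ → V} {K : Submodule (ZMod 2) V} (j : ℕ) (h : Ind e K (j + 1)) :
    (Fv e j).Nodup := by
  induction j with
  | zero => exact List.nodup_singleton _
  | succ j ih =>
    have h1 : e (j + 1) ∉ Sp e (j + 1) := h.not_mem (Nat.lt_succ_self _)
    have h2 : e j ∉ Sp e j := h.not_mem (by omega)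
    show (e (j + 1) :: (e j + e (j + 1)) :: Fv e j).Nodup
    rw [List.nodup_cons, List.nodup_cons, List.mem_cons, not_or]
    refine ⟨⟨fun h3 => h2 ?_, fun h3 => h1 (Fv_sub h3)⟩, fun h3 => h1 ?_,
      ih (h.mono (Nat.le_succ _))⟩
    · have h4 : e j = 0 := by
        have h5 : 0 + e (j + 1) = e j + e (j + 1) := by rw [zero_add]; exact h3
        exact (add_right_cancel h5).symm
      rw [h4]
      exact zero_mem _
    · have h4 : e (j + 1) = e j + (e j + e (j + 1)) := by rw [← add_assoc, aself, zero_add]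
      rw [h4]
      exact add_mem (mem_Sp (Nat.lt_succ_self j)) (Fv_sub h3)

end

private theorem MM_ofFn (r z : ℕ → ℂ) (n : ℕ) :
    ((List.ofFn fun i : Fin n => (r ((i : ℕ) + 1), z ((i : ℕ) + 1))).map TD).prod = MM r z n := by
  induction n with
  | zero => rfl
  | succ n ih =>
    rw [List.ofFn_succ', List.map_concat, List.concat_eq_append, List.prod_append,
      List.prod_singleton]
    show ((List.ofFn fun i : Fin n => (r ((i : ℕ) + 1), z ((i : ℕ) + 1))).map TD).prod *
      TD (r (n + 1), z (n + 1)) = MM r z n * TD (r (n + 1), z (n + 1))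
    rw [ih]

private theorem RR_ofFn (r z : ℕ → ℂ) (n : ℕ) :
    ((List.ofFn fun i : Fin n => (r ((i : ℕ) + 1), z ((i : ℕ) + 1))).map
      fun t : ℂ × ℂ => t.1 - 1).prod = RR r n := by
  induction n with
  | zero => rfl
  | succ n ih =>
    rw [List.ofFn_succ', List.map_concat, List.concat_eq_append, List.prod_append,
      List.prod_singleton]
    show ((List.ofFn fun i : Fin n => (r ((i : ℕ) + 1), z ((i : ℕ) + 1))).map
      fun t : ℂ × ℂ => t.1 - 1).prod * (r (n + 1) - 1) = RR r n * (r (n + 1) - 1)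
    rw [ih]

theorem thm_Form : St_Form := by
  intro V _ _ _ m _ e K hm hind x
  obtain ⟨n, rfl⟩ : ∃ n, m = n + 1 := ⟨m - 1, by omega⟩
  have hn : 2 ≤ n := by omega
  obtain ⟨e', he'⟩ : ∃ e' : ℕ → V, ∀ i : ℕ, e' i = e (i : ZMod (n + 1)) :=
    ⟨fun i => e (i : ZMod (n + 1)), fun _ => rfl⟩
  have hcast : ((n + 1 : ℕ) : ZMod (n + 1)) = 0 := ZMod.natCast_self (n + 1)
  have hInd : Ind e' K (n + 1) := by
    intro i hi h
    have h1 := hind.notMem_span_image (s := (fun k : ℕ => (k : ZMod (n + 1))) '' Set.Iio i)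
      (x := (i : ZMod (n + 1))) (by
        rintro ⟨k, hk, hk'⟩
        have hk1 : k < i := hk
        have h2 : k % (n + 1) = i % (n + 1) := (ZMod.natCast_eq_natCast_iff' k i (n + 1)).1 hk'
        rw [Nat.mod_eq_of_lt (by omega), Nat.mod_eq_of_lt hi] at h2
        omega)
    apply h1
    have h2 : (K.mkQ ∘ e) (i : ZMod (n + 1)) ∈ Submodule.map K.mkQ (K ⊔ Sp e' i) :=
      ⟨e' i, h, by rw [he']; rfl⟩
    rw [Submodule.map_sup, Submodule.mkQ_map_self, bot_sup_eq] at h2
    unfold Sp at h2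
    rw [Submodule.map_span] at h2
    have h3 : K.mkQ '' (e' '' Set.Iio i) =
        (K.mkQ ∘ e) '' ((fun k : ℕ => (k : ZMod (n + 1))) '' Set.Iio i) := by
      rw [Set.image_image, Set.image_image]
      refine Set.image_congr fun k _ => ?_
      rw [he']
      rfl
    rw [h3] at h2
    exact h2
  have hset : (Finset.univ.image e ∪ Finset.univ.image fun i => e i + e (i + 1)) =
      ((e' n + e' 0) :: Fv e' n).toFinset := by
    ext v
    rw [Finset.mem_union, Finset.mem_image, Finset.mem_image, List.mem_toFinset, List.mem_cons,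
      mem_Fv]
    have hval : ∀ i : ZMod (n + 1), i.val < n + 1 := fun i => ZMod.val_lt i
    have hcv : ∀ i : ZMod (n + 1), ((i.val : ℕ) : ZMod (n + 1)) = i := fun i =>
      ZMod.natCast_zmod_val i
    constructor
    · rintro (⟨i, -, rfl⟩ | ⟨i, -, rfl⟩)
      · refine Or.inr (Or.inl ⟨i.val, by have := hval i; omega, ?_⟩)
        rw [he', hcv]
      · rcases Nat.lt_or_ge i.val n with h | h
        · refine Or.inr (Or.inr ⟨i.val, h, ?_⟩)
          rw [he', he', Nat.cast_add, hcv, Nat.cast_one]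
        · have h1 : i.val = n := by have := hval i; omega
          refine Or.inl ?_
          have h3 : i = ((n : ℕ) : ZMod (n + 1)) := (hcv i).symm.trans (congrArg Nat.cast h1)
          have h2 : i + 1 = 0 := by
            rw [h3, ← hcast, Nat.cast_add, Nat.cast_one]
          rw [he', he', h2, ← h3, Nat.cast_zero]
    · rintro (rfl | ⟨i, hi, rfl⟩ | ⟨i, hi, rfl⟩)
      · refine Or.inr ⟨(n : ZMod (n + 1)), Finset.mem_univ _, ?_⟩
        rw [he', he']
        have h2 : (n : ZMod (n + 1)) + 1 = 0 := by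
          rw [← hcast, Nat.cast_add, Nat.cast_one]
        rw [h2, Nat.cast_zero]
      · exact Or.inl ⟨(i : ZMod (n + 1)), Finset.mem_univ _, (he' i).symm⟩
      · refine Or.inr ⟨(i : ZMod (n + 1)), Finset.mem_univ _, ?_⟩
        rw [he', he', Nat.cast_add, Nat.cast_one]
  have hnd : ((e' n + e' 0) :: Fv e' n).Nodup := by
    refine List.nodup_cons.2 ⟨fun h => ?_, Fv_nodup n hInd⟩
    have h0 : e' 0 ∉ Sp e' 0 := hInd.not_mem (by omega)
    have hn' : e' n ∉ Sp e' n := hInd.not_mem (by omega)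
    have hn1 : e' (n - 1) ∉ Sp e' (n - 1) := hInd.not_mem (by omega)
    have key : e' n + e' 0 ∉ Sp e' n := by
      intro h1
      apply hn'
      have h2 : e' n = (e' n + e' 0) + e' 0 := by rw [add_assoc, aself, add_zero]
      rw [h2]
      exact add_mem h1 (mem_Sp (by omega))
    rcases (mem_Fv e' n _).1 h with ⟨i, hi, h1⟩ | ⟨i, hi, h1⟩
    · rcases Nat.lt_or_ge i n with h2 | h2
      · exact key (h1 ▸ mem_Sp h2)
      · have h3 : i = n := by omega
        rw [h3] at h1
        apply h0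
        have h4 : e' 0 = 0 := by
          have h5 : e' n + e' 0 = e' n + 0 := by rw [add_zero]; exact h1
          exact add_left_cancel h5
        rw [h4]
        exact zero_mem _
    · rcases Nat.lt_or_ge (i + 1) n with h2 | h2
      · exact key (h1 ▸ add_mem (mem_Sp (by omega)) (mem_Sp h2))
      · have h3 : i + 1 = n := by omega
        have h4 : i = n - 1 := by omega
        rw [h3, add_comm (e' i), h4] at h1
        have h5 := add_left_cancel h1
        exact hn1 (h5 ▸ mem_Sp (by omega))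
  rw [hset, PP_list x _ hnd K, List.map_cons, Fv_map,
    PPL_wheel n _ _ K hInd]
  have hf : ∀ i : Fin n, (x (e (((i.succ : Fin (n + 1)) : ℕ) : ZMod (n + 1)) +
      e ((((i.succ : Fin (n + 1)) : ℕ) : ZMod (n + 1)) - 1)),
      x (e (((i.succ : Fin (n + 1)) : ℕ) : ZMod (n + 1)))) =
      (x (e' ((i : ℕ) + 1 - 1) + e' ((i : ℕ) + 1)), x (e' ((i : ℕ) + 1))) := by
    intro i
    rw [Fin.val_succ, he', he', Nat.add_sub_cancel, Nat.cast_add, Nat.cast_one,
      add_sub_cancel_right, add_comm]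
  have hl : (List.ofFn fun i : Fin (n + 1) => (x (e (i : ℕ) + e ((i : ℕ) - 1)), x (e (i : ℕ)))) =
      (x (e' n + e' 0), x (e' 0)) :: List.ofFn fun i : Fin n =>
        (x (e' ((i : ℕ) + 1 - 1) + e' ((i : ℕ) + 1)), x (e' ((i : ℕ) + 1))) := by
    rw [List.ofFn_succ]
    congr 1
    · have h1 : ((0 : ℕ) : ZMod (n + 1)) - 1 = (n : ZMod (n + 1)) := by
        rw [Nat.cast_zero, ← hcast, Nat.cast_add, Nat.cast_one, add_sub_cancel_right]
      show (x (e ((0 : ℕ) : ZMod (n + 1)) + e (((0 : ℕ) : ZMod (n + 1)) - 1)),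
        x (e ((0 : ℕ) : ZMod (n + 1)))) = _
      rw [h1, ← he', ← he', add_comm]
    · congr 1
      funext i
      exact hf i
  rw [hl]
  unfold WW
  rw [List.map_cons, List.map_cons, List.prod_cons, List.prod_cons]
  rw [MM_ofFn (fun i => x (e' (i - 1) + e' i)) (fun i => x (e' i)) n,
    RR_ofFn (fun i => x (e' (i - 1) + e' i)) (fun i => x (e' i)) n]

end Pool.Agent.WHL
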