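import Pool.Agent.WHL.Defs

/-!
# WHL, module MG: spokes of weight `1` are dropped (helper41)
-/

set_option autoImplicit false

namespace Pool.Agent.WHL

private theorem ww_append (A B : List (ℂ × ℂ)) : WW (A ++ B) = WW (B ++ A) := by
  unfold WW
  rw [List.map_append, List.map_append, List.prod_append, List.prod_append,
    Matrix.trace_mul_comm, List.map_append, List.map_append, List.prod_append, List.prod_append,
    mul_comm ((A.map fun t => t.1 - 1).prod)]

private theorem rot_split {A B : List (ℂ × ℂ)} (h : A ~r B) :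
    ∃ P Q : List (ℂ × ℂ), A = P ++ Q ∧ B = Q ++ P := by
  obtain ⟨n, rfl⟩ := h
  rcases A with _ | ⟨a, A⟩
  · exact ⟨[], [], rfl, by simp⟩
  · refine ⟨(a :: A).take (n % (a :: A).length), (a :: A).drop (n % (a :: A).length),
      (List.take_append_drop _ _).symm, ?_⟩
    rw [← List.rotate_mod, List.rotate_eq_drop_append_take (Nat.mod_lt _ (by simp)).le]

private theorem ww_rot {A B : List (ℂ × ℂ)} (h : A ~r B) : WW A = WW B := by
  obtain ⟨P, Q, rfl, rfl⟩ := rot_split h
  exact ww_append P Q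

private theorem filter_rot {A B : List (ℂ × ℂ)} (h : A ~r B) (p : ℂ × ℂ → Bool) :
    A.filter p ~r B.filter p := by
  obtain ⟨P, Q, rfl, rfl⟩ := rot_split h
  rw [List.filter_append, List.filter_append]
  exact List.isRotated_append

/-- real part of `1 / (1 - r)` -/
private theorem re_half {r : ℂ} (h1 : ‖r‖ ≤ 1) (h2 : r ≠ 1) : (1 / 2 : ℝ) ≤ ((1 - r)⁻¹).re := by
  have h3 : 0 < Complex.normSq (1 - r) := Complex.normSq_pos.2 (sub_ne_zero.2 (Ne.symm h2))
  rw [Complex.inv_re, le_div_iff₀ h3]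
  have h4 : r.re ^ 2 + r.im ^ 2 ≤ 1 := by
    have := Complex.sq_norm r
    rw [Complex.normSq_apply] at this
    have h5 : ‖r‖ ^ 2 ≤ 1 := by
      have := norm_nonneg r
      nlinarith
    nlinarith
  rw [Complex.normSq_apply]
  simp only [Complex.sub_re, Complex.one_re, Complex.sub_im, Complex.one_im]
  nlinarith

/-- conversely -/
private theorem norm_of_re {p : ℂ} (h : (1 / 2 : ℝ) ≤ p.re) : ‖1 - p⁻¹‖ ≤ 1 := by
  have hp : p ≠ 0 := by
    rintro rfl
    norm_num at h
  have h3 : 0 < Complex.normSq p := Complex.normSq_pos.2 hp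
  have h1 : 1 - p⁻¹ = (p - 1) / p := by
    field_simp
  rw [h1, norm_div, div_le_one (norm_pos_iff.2 hp)]
  have h4 : ‖p - 1‖ ^ 2 ≤ ‖p‖ ^ 2 := by
    rw [Complex.sq_norm, Complex.sq_norm, Complex.normSq_apply, Complex.normSq_apply]
    simp only [Complex.sub_re, Complex.one_re, Complex.sub_im, Complex.one_im]
    nlinarith
  exact (abs_le_of_sq_le_sq' h4 (norm_nonneg _)).2

/-- merging two rim elements -/
private theorem merge2 {r s : ℂ} (hr : ‖r‖ ≤ 1) (hr1 : r ≠ 1) (hs : ‖s‖ ≤ 1) (hs1 : s ≠ 1) :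
    ∃ q : ℂ, ‖q‖ ≤ 1 ∧ q ≠ 1 ∧ r + s - 2 ≠ 0 ∧ (r + s - 2) * (q - 1) = (r - 1) * (s - 1) := by
  have h1 := re_half hr hr1
  have h2 := re_half hs hs1
  have h3 : (1 / 2 : ℝ) ≤ ((1 - r)⁻¹ + (1 - s)⁻¹).re := by
    rw [Complex.add_re]
    linarith
  have hp : (1 - r)⁻¹ + (1 - s)⁻¹ ≠ 0 := by
    intro h0
    rw [h0] at h3
    norm_num at h3
  have hr0 : 1 - r ≠ 0 := sub_ne_zero.2 (Ne.symm hr1)
  have hs0 : 1 - s ≠ 0 := sub_ne_zero.2 (Ne.symm hs1)
  have hc : r + s - 2 = - (((1 - r)⁻¹ + (1 - s)⁻¹) * ((1 - r) * (1 - s))) := by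
    field_simp
    ring
  refine ⟨1 - ((1 - r)⁻¹ + (1 - s)⁻¹)⁻¹, norm_of_re h3, ?_, ?_, ?_⟩
  · intro h0
    have h4 : ((1 - r)⁻¹ + (1 - s)⁻¹)⁻¹ = 0 := by linear_combination -h0
    exact hp (inv_eq_zero.1 h4)
  · rw [hc]
    exact neg_ne_zero.2 (mul_ne_zero hp (mul_ne_zero hr0 hs0))
  · rw [hc]
    have h5 := mul_inv_cancel₀ hp
    linear_combination ((1 - r) * (1 - s)) * h5

/-- the step: a spoke of weight `1` is dropped -/
private theorem ww_merge {r s q : ℂ} (z : ℂ) (M : List (ℂ × ℂ))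
    (h : (r + s - 2) * (q - 1) = (r - 1) * (s - 1)) :
    WW ((r, 1) :: (s, z) :: M) = (r + s - 2) * WW ((q, z) :: M) := by
  unfold WW
  have h1 : TD (r, 1) * TD (s, z) = (r + s - 2) • TD (q, z) := by
    unfold TD
    ext i j
    fin_cases i <;> fin_cases j <;>
      simp [Matrix.mul_apply, Fin.sum_univ_two]
    · linear_combination z * (-h)
    · ring
    · ring
    · linear_combination -h
  rw [List.map_cons, List.map_cons, List.prod_cons, List.prod_cons, ← mul_assoc, h1,
    Matrix.smul_mul, Matrix.trace_smul, List.map_cons, List.prod_cons, List.map_cons,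
    List.map_cons, List.prod_cons, List.prod_cons, List.map_cons, List.prod_cons]
  simp only [smul_eq_mul]
  linear_combination (2 * (M.map fun t => t.1 - 1).prod) * h

private theorem merge_aux (n : ℕ) : ∀ L : List (ℂ × ℂ), L.length = n →
    (∀ t ∈ L, ‖t.1‖ ≤ 1 ∧ t.1 ≠ 1 ∧ ‖t.2‖ = 1) → (∃ t ∈ L, t.2 ≠ 1) →
    ∃ L' : List (ℂ × ℂ), (∀ t ∈ L', ‖t.1‖ ≤ 1 ∧ t.1 ≠ 1 ∧ ‖t.2‖ = 1 ∧ t.2 ≠ 1) ∧
      (L'.map fun t => t.2) ~r ((L.filter fun t => t.2 ≠ 1).map fun t => t.2) ∧
      (WW L = 0 → WW L' = 0) := by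
  induction n with
  | zero =>
    intro L hL _ hex
    obtain ⟨t, ht, _⟩ := hex
    rw [List.length_eq_zero_iff] at hL
    subst hL
    simp at ht
  | succ n ih =>
    intro L hL hall hex
    by_cases hone : ∃ t ∈ L, t.2 = 1
    · obtain ⟨t, ht, ht1⟩ := hone
      obtain ⟨P, Q, rfl⟩ := List.append_of_mem ht
      have hrot : (P ++ t :: Q) ~r (t :: (Q ++ P)) := by
        have := List.isRotated_append (l := P) (l' := t :: Q)
        simpa using this
      obtain ⟨r, z0⟩ := t
      simp only at ht1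
      subst ht1
      have hall' : ∀ u ∈ (r, (1 : ℂ)) :: (Q ++ P), ‖u.1‖ ≤ 1 ∧ u.1 ≠ 1 ∧ ‖u.2‖ = 1 := by
        intro u hu
        exact hall u (hrot.mem_iff.2 hu)
      have hex' : ∃ u ∈ (r, (1 : ℂ)) :: (Q ++ P), u.2 ≠ 1 := by
        obtain ⟨u, hu, hu1⟩ := hex
        exact ⟨u, hrot.mem_iff.1 hu, hu1⟩
      have hlen : (Q ++ P).length = n := by
        have := hrot.perm.length_eq
        rw [hL, List.length_cons] at this
        omega
      rcases hM : Q ++ P with _ | ⟨⟨s, z⟩, M⟩
      · rw [hM] at hex'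
        obtain ⟨u, hu, hu1⟩ := hex'
        rw [List.mem_singleton] at hu
        subst hu
        exact absurd rfl hu1
      · rw [hM] at hall' hex' hlen hrot
        obtain ⟨hr, hr1, _⟩ := hall' (r, 1) (by simp)
        obtain ⟨hs, hs1, hz⟩ := hall' (s, z) (by simp)
        obtain ⟨q, hq, hq1, hc, hq2⟩ := merge2 hr hr1 hs hs1
        obtain ⟨L', a1, a2, a3⟩ := ih ((q, z) :: M) (by simpa using hlen)
          (by
            intro u hu
            rcases List.mem_cons.1 hu with hu | hu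
            · subst hu
              exact ⟨hq, hq1, hz⟩
            · exact hall' u (by simp [hu]))
          (by
            obtain ⟨u, hu, hu1⟩ := hex'
            rcases List.mem_cons.1 hu with hu | hu
            · subst hu
              exact absurd rfl hu1
            · rcases List.mem_cons.1 hu with hu | hu
              · subst hu
                exact ⟨(q, z), by simp, hu1⟩
              · exact ⟨u, by simp [hu], hu1⟩)
        refine ⟨L', a1, a2.trans ?_, ?_⟩
        · have h1 := (filter_rot hrot fun t => decide (t.2 ≠ 1)).symm.map fun t => t.2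
          refine List.IsRotated.trans ?_ h1
          by_cases hz1 : z = 1
          · simp [hz1, List.IsRotated.refl]
          · simp [hz1, List.IsRotated.refl]
        · intro h0
          apply a3
          rw [ww_rot hrot, ww_merge z M hq2] at h0
          exact (mul_eq_zero.1 h0).resolve_left hc
    · push Not at hone
      refine ⟨L, fun t ht => ?_, ?_, id⟩
      · obtain ⟨h1, h2, h3⟩ := hall t ht
        exact ⟨h1, h2, h3, hone t ht⟩
      · rw [List.filter_eq_self.2 (by
          intro t ht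
          simpa using hone t ht)]

/-- **Module MG.** -/
theorem thm_Merge : St_Merge := fun L h1 h2 => merge_aux L.length L rfl h1 h2

end Pool.Agent.WHL
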