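import Mathlib
import Pool.Agent.SPT.NZ
import Pool.Agent.SPT.Ne

/-!
# WHL: the nonvanishing theorem for wheels with series-parallel rims (helper60)

`V` is a vector space over the field with two elements.  The wheel with `m` spokes is the set of the
vectors `e i` (spokes) and `e i + e (i + 1)` (rim), `i` modulo `m`, `e` linearly independent.
-/

set_option autoImplicit false

open Submodule

namespace Pool.Agent.WHL

open Pool.Agent.SPT (PP Good Spans NonV NonVs)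

/-- The matroid of `S ∪ R` modulo `K` is obtained from a wheel by series and parallel extensions of
elements of the rim, loops and coloops.  `S` is the set of the spokes. -/
inductive SPWheel {V : Type} [AddCommGroup V] [Module (ZMod 2) V] [DecidableEq V] :
    Finset V → Finset V → Submodule (ZMod 2) V → Prop
  | wheel (m : ℕ) [NeZero m] (e : ZMod m → V) (K : Submodule (ZMod 2) V) : 3 ≤ m →
      LinearIndependent (ZMod 2) (K.mkQ ∘ e) →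
      SPWheel (Finset.univ.image e) (Finset.univ.image fun i => e i + e (i + 1)) K
  | loop (S R : Finset V) (K : Submodule (ZMod 2) V) (v : V) : v ∈ K → SPWheel S R K →
      SPWheel S (insert v R) K
  | coloop (S R : Finset V) (K : Submodule (ZMod 2) V) (v : V) :
      v ∉ K ⊔ span (ZMod 2) ((S ∪ R : Finset V) : Set V) →
      SPWheel S R (K ⊔ span (ZMod 2) {v}) → SPWheel S (insert v R) K
  | parallel (S R : Finset V) (K : Submodule (ZMod 2) V) (v w : V) : w ∈ R → v + w ∈ K →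
      SPWheel S R K → SPWheel S (insert v R) K
  | series (S R : Finset V) (K : Submodule (ZMod 2) V) (v w : V) : v ≠ w →
      v ∉ K ⊔ span (ZMod 2) ((S ∪ R : Finset V) : Set V) →
      v + w ∈ K ⊔ span (ZMod 2) ((S ∪ R : Finset V) : Set V) →
      SPWheel S (insert w R) (K ⊔ span (ZMod 2) {v}) →
      SPWheel S (insert v (insert w R)) K

/-- **THE THEOREM** (assembly of F, N, ST, AV and the induction over `SPWheel`) -/
def St_Wheel : Prop :=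
  ∀ (V : Type) [AddCommGroup V] [Module (ZMod 2) V] [DecidableEq V] (S R L : Finset V),
    SPWheel S R ⊥ → span (ZMod 2) (L : Set V) = span (ZMod 2) ((S ∪ R : Finset V) : Set V) →
    NonVs L (S ∪ R)

/-! ### Transfer matrices

A list of pairs `(r, z)`: the weights of a rim element and of the following spoke. -/

/-- `T r * D z` -/
def TD (t : ℂ × ℂ) : Matrix (Fin 2) (Fin 2) ℂ := !![t.1 * t.2, -1; t.2, t.1 - 2]

/-- the polynomial of the wheel -/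
noncomputable def WW (L : List (ℂ × ℂ)) : ℂ :=
  (L.map TD).prod.trace - 2 * (L.map fun t => t.1 - 1).prod

/-- The elements of weight `≠ 1` span the wheel: some spoke has weight `≠ 1`, and between two rim
elements of weight `1` there is a spoke of weight `≠ 1`. -/
def Spn (L : List (ℂ × ℂ)) : Prop :=
  (∃ t ∈ L, t.2 ≠ 1) ∧ ∀ s t P R, L ~r (s :: P ++ t :: R) → s.1 = 1 → t.1 = 1 →
    ∃ u ∈ s :: P, u.2 ≠ 1

/-- **Module F** (formula).  PROOF.  Work with lists `l` of pairs (vector, weight) and the recursion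
`PPL K [] = 1`, `PPL K ((v, x) :: l) = (if v ∈ K ⊔ span l then PPL K l else 0) + (x - 1) * PPL (K ⊔ span {v}) l`
(`PPL` is symmetric, changes nothing if a vector is changed modulo `K`, parallel elements: product of the
weights).  Fan `F_0 = [(e 0, z 0)]`, `F_j = (e j, z j) :: (e (j-1) + e j, r j) :: F_(j-1)`: with
`A_j = PPL K F_j`, `C_j = PPL (K ⊔ e j) ((e (j-1) + e j, r j) :: F_(j-1))` (all `K` modulo which `e 0, .., e j` are
independent): `A_0 = z 0 - 1`, `C_0 = 1`, `A_j = (r j - 1) A_(j-1) + (z j - 1) C_j`,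
`C_j = A_(j-1) + (r j - 1) z_(j-1) C_(j-1)`.  Wheel with an additional copy of `e 0` of weight `y` and the rim
element `e j + e 0` of weight `t`: `G_j(y, t) = A_j(y z 0) + (t - 1) G_(j-1)(y z j, r j)`,
`G_0(y, t) = t (y z 0 - 1)`.  Compare with `WW`: `T t = (t - 1) + E`, `E = (1, 1)^T (1, -1)`. -/
def St_Form : Prop :=
  ∀ (V : Type) [AddCommGroup V] [Module (ZMod 2) V] [DecidableEq V] (m : ℕ) [NeZero m]
    (e : ZMod m → V) (K : Submodule (ZMod 2) V), 3 ≤ m →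
    LinearIndependent (ZMod 2) (K.mkQ ∘ e) → ∀ x : V → ℂ,
    PP (Finset.univ.image e ∪ Finset.univ.image fun i => e i + e (i + 1)) K x =
      WW (List.ofFn fun i : Fin m => (x (e (i : ℕ) + e ((i : ℕ) - 1)), x (e (i : ℕ))))

/-- **Module SP** (few spokes, or a rim element is missing): see the docstring of `St_StarA` for the
notation.  PROOF.  (1) some `r = 1`: rotate the list so that it is the first.  `T 1 = (1, 1)^T (1, -1)`.
Apply the other factors from the right to `(1, 1)`.  For `v = (x, y)` let `N = |y|² - |x|²`, `δ = y - x`.  `D z`: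
`N` unchanged; `T r`, `r ≠ 1`, `p = 1 / (1 - r)`, `T r = (r - 1) (1 - p E)`: `δ ↦ (r - 1) δ`,
`N ↦ |r - 1|² (N + 2 Re p |δ|²)`, `Re p ≥ 1/2`; `T 1`: `(x, y) ↦ - δ (1, 1)`.  The vector is always `≠ 0`, and either
`N > 0`, or it is a multiple of `(1, 1)` (and then no spoke `≠ 1` has been met since the last `T 1`), or
`N = 0`, `δ ≠ 0` (right after the first spoke `≠ 1`).  So before every `T 1`: `δ ≠ 0`.  (2) all `r ≠ 1`, one spoke
`z ≠ 1`: `WW = ∏ (r - 1) * (1 - p) * (z - 1)` with `p = ∑ 1 / (1 - r)`, `Re p ≥ 3/2`.  (3) two spokes `≠ 1`: the rim is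
divided in two parts with sums `p1`, `p2` (real parts `≥ 1/2`, `Re (p1 + p2) ≥ 3/2`); with `q i = 1 / (1 - z i)`,
`Re q i = 1/2`: `q1 q2 WW / ∏ (r - 1) = (q1 + q2 - 1) (p1 + p2 - 1) + p1 p2`, and
`Re (p1 p2 / (p1 + p2 - 1)) ≥ 1/2` (it is `1 / (1 - w1 w2)`, `w i = 1 - 1 / p i`, `|w i| ≤ 1`), `Re (q1 + q2 - 1) = 0`. -/
def St_Few : Prop :=
  ∀ L : List (ℂ × ℂ), 3 ≤ L.length → (∀ t ∈ L, ‖t.1‖ ≤ 1 ∧ ‖t.2‖ = 1) → Spn L →
    ((∃ t ∈ L, t.1 = 1) ∨ (L.filter fun t => t.2 ≠ 1).length ≤ 2) → WW L ≠ 0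

/-- **Module STA** (the eigenvector).  PROOF.  `p = 1 / (1 - r)`, `Re p ≥ 1/2`, `T r = (r - 1) (1 - p E)`,
`E = !![1, -1; 1, -1]`, `E² = 0`.  `M = ∏ (1 - p i E) D (z i)`, `D z = !![z, 0; 0, 1]`: `WW L = 0` says `Tr M = 2`;
`det M = u = ∏ z i`, `|u| = 1`.  For an eigenvector `v`, `M v = λ v`: let `(x, y)` be the vector before the
`i`-th rim factor, `N i = |y|² - |x|²`, `δ i = y - x`; the rim factor keeps `δ` and adds `2 Re p |δ|²` to `N`, the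
spoke keeps `N`.  `δ i ≠ 0` for some `i` (otherwise `v = 0` because `z i ≠ 1`), so
`(|λ|² - 1) N(v) = ∑ 2 Re p |δ i|² > 0`.  As `|λ1 λ2| = 1` there is an eigenvalue with `|λ| > 1`; `N(v) > 0`, so `N > 0`
always and `δ i ≠ 0` always (`N > 0` and `z ≠ 1` give `y ≠ z x`; the vector before a rim factor is
`(z x, y)`).  `X i = N i / |δ i|²`, `X' i = X i + 2 Re p i ≥ X i + 1` after the rim factor, `|λ|² = ∏ X' i / X i`.  At a
spoke: `|1 - z| N ≤ 2 |y - x| |y - z x|`, as `|1 - z|² N = 2 Re ((y - z x) conj (y - x) (1 - conj z))` for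
`|z| = 1`; so `X' i * X (i+1) ≤ 4 / |1 - z|²`.  Last: `|λ1|² + |λ2|² = (|λ1 + λ2|² + |λ1 - λ2|²) / 2 = 2 + 2 |1 - u|`
(`(λ1 - λ2)² = 4 - 4 u`) and `|λ1 λ2| = 1` give `(|λ| - 1/|λ|)² = 2 |1 - u|`.  `Λ = |λ|`. -/
def St_StarA : Prop :=
  ∀ L : List (ℂ × ℂ), (∀ t ∈ L, ‖t.1‖ ≤ 1 ∧ t.1 ≠ 1 ∧ ‖t.2‖ = 1 ∧ t.2 ≠ 1) → L ≠ [] →
    WW L = 0 → ∃ (Λ : ℝ) (X : Fin L.length → ℝ), 1 < Λ ∧ (∀ i, 0 < X i) ∧
      ∏ i, (X i + 1) ≤ Λ ^ 2 * ∏ i, X i ∧
      ((L.map fun t => ‖1 - t.2‖).prod * Λ * ∏ i, X i) ^ 2 ≤ 4 ^ L.length ∧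
      (Λ - Λ⁻¹) ^ 2 = 2 * ‖1 - (L.map fun t => t.2).prod‖

/-- **Module STB** (real numbers).  PROOF.  `P = ∏ X i`: `W Λ P ≤ 2^k` and `Λ² ≥ ∏ (1 + 1 / X i) ≥ (1 + P^(-1/k))^k`
(geometric means: arithmetic-geometric mean for `X i / (X i + 1)` and for `1 / (X i + 1)`).  With
`τ = Λ^(1/k)`: `τ² ≥ 1 + τ W^(1/k) / 2`, so `W^(1/k) ≤ 2 (τ - 1/τ)`.  Let `a = log Λ`, `b = a / 3 ≥ a / k`:
`2 (τ - 1/τ) = 4 sinh (a / k) ≤ 4 sinh b = 2 h`, `h = 2 sinh b`, and `√(2 d) = Λ - 1/Λ = 2 sinh (3 b) = h (h² + 3)`.  So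
`W^(1/k) ≤ 2 h` and `(2 h)^9 ≤ d⁴ / 2`, because `2 * 512 h^9 * 16 ≤ h^8 (h² + 3)^8`, i.e. `16384 h ≤ (h² + 3)^8` for
`h ≥ 0` (the minimum of the quotient `(h² + 3)^8 / h` is 24585, at `h² = 1/5`; e.g. `h² + 3 ≥ 2.79 + 0.9 h` and
the first three terms of `(2.79 + 0.9 h)^8`). -/
def St_StarB : Prop :=
  ∀ (k : ℕ) (X : Fin k → ℝ) (Λ W d : ℝ), 3 ≤ k → 1 < Λ → 0 ≤ W → (∀ i, 0 < X i) →
    ∏ i, (X i + 1) ≤ Λ ^ 2 * ∏ i, X i → (W * Λ * ∏ i, X i) ^ 2 ≤ 4 ^ k → (Λ - Λ⁻¹) ^ 2 = 2 * d →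
    W ^ 9 ≤ (1 / 2) ^ k * d ^ (4 * k)

/-- the inequality (from STA and STB) -/
def St_Star : Prop :=
  ∀ L : List (ℂ × ℂ), (∀ t ∈ L, ‖t.1‖ ≤ 1 ∧ t.1 ≠ 1 ∧ ‖t.2‖ = 1 ∧ t.2 ≠ 1) → 3 ≤ L.length →
    WW L = 0 →
    (L.map fun t => ‖1 - t.2‖).prod ^ 9 ≤
      (1 / 2) ^ L.length * ‖1 - (L.map fun t => t.2).prod‖ ^ (4 * L.length)

theorem star_of (hA : St_StarA) (hB : St_StarB) : St_Star := by
  intro L h1 h3 hW
  obtain ⟨Λ, X, a1, a2, a3, a4, a5⟩ := hA L h1 (by rintro rfl; simp at h3) hW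
  refine hB L.length X Λ _ _ h3 a1 (List.prod_nonneg ?_) a2 a3 a4 a5
  intro a ha
  obtain ⟨t, _, rfl⟩ := List.mem_map.1 ha
  exact norm_nonneg _

/-- **Module MG** (spokes of weight `1` are dropped).  PROOF.  `(1 - p E) (1 - p' E) = 1 - (p + p') E`; rotate the
list such that it ends with a spoke `≠ 1`, and put together the rim factors before each spoke `≠ 1`:
`r` with `1 / (1 - r) = ∑ 1 / (1 - r i)`, real part `≥ 1/2`, so `‖r‖ ≤ 1`. `WW` is multiplied by a nonzero factor. -/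
def St_Merge : Prop :=
  ∀ L : List (ℂ × ℂ), (∀ t ∈ L, ‖t.1‖ ≤ 1 ∧ t.1 ≠ 1 ∧ ‖t.2‖ = 1) → (∃ t ∈ L, t.2 ≠ 1) →
    ∃ L' : List (ℂ × ℂ), (∀ t ∈ L', ‖t.1‖ ≤ 1 ∧ t.1 ≠ 1 ∧ ‖t.2‖ = 1 ∧ t.2 ≠ 1) ∧
      (L'.map fun t => t.2) ~r ((L.filter fun t => t.2 ≠ 1).map fun t => t.2) ∧
      (WW L = 0 → WW L' = 0)

/-- **Module AV** (averaging).  PROOF.  If `∑ a = 0` take `z` on the circle with `z ^ b ≠ 1` for the finitely many
`b ∈ B` and all `a i`.  Otherwise let `q` be a prime larger than all `|b|`, `|a i|`, `|∑ a|`, `ξ = exp (2 π i / q)`, so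
`ξ ^ b ≠ 1` for all of them.  For a prime `N` larger than all `|a i|`, `|∑ a|`: let `z j`, `j < N`, be the `N`-th roots
of `ξ`; `z j ^ b ≠ 1` because `z j ^ (N b) = ξ ^ b`.  `∏ j, |1 - z j ^ a| = |1 - ξ ^ a|` for `a ≠ 0`, `|a| < N` (`a` and `N` are
coprime: `z j ^ a` runs through the `N`-th roots of `ξ ^ a`).  If the inequality fails for all `z j`, the
product over `j` gives `c ^ 9 ≤ (1/2) ^ (k N) * 2 ^ (4 k)` with `c = ∏ |1 - ξ ^ a i| > 0` independent of `N`. -/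
def St_Aver : Prop :=
  ∀ (k : ℕ) (a : Fin k → ℤ), 1 ≤ k → (∀ i, a i ≠ 0) → ∀ B : Finset ℤ, (∀ b ∈ B, b ≠ 0) →
    ∃ z : ℂ, ‖z‖ = 1 ∧ (∀ b ∈ B, z ^ b ≠ 1) ∧ (∀ i, z ^ a i ≠ 1) ∧
      (1 / 2) ^ k * ‖1 - z ^ (∑ i, a i)‖ ^ (4 * k) < (∏ i, ‖1 - z ^ a i‖) ^ 9

end Pool.Agent.WHL
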