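import Mathlib
import Pool.Agent.WHL.Defs

/-!
# WHL, module STA: the hyperbolic inequality for the eigenvector
-/

set_option autoImplicit false

namespace Pool.Agent.WHL

open Matrix

/-- the normalized factor -/
private noncomputable def StarA_M (t : ℂ × ℂ) : Matrix (Fin 2) (Fin 2) ℂ := (t.1 - 1)⁻¹ • TD t

private noncomputable def StarA_N (v : Fin 2 → ℂ) : ℝ := ‖v 1‖ ^ 2 - ‖v 0‖ ^ 2

private noncomputable def StarA_d (v : Fin 2 → ℂ) : ℂ := v 1 - v 0

private def StarA_good (t : ℂ × ℂ) : Prop := ‖t.1‖ ≤ 1 ∧ t.1 ≠ 1 ∧ ‖t.2‖ = 1 ∧ t.2 ≠ 1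

private theorem StarA_sq (w : ℂ) : ‖w‖ ^ 2 = w.re ^ 2 + w.im ^ 2 := by
  rw [← Complex.normSq_eq_norm_sq, Complex.normSq_apply]
  ring

private theorem StarA_re (r : ℂ) (h1 : ‖r‖ ≤ 1) (h2 : r ≠ 1) : 1 ≤ 2 * ((1 - r)⁻¹).re := by
  have h3 : 0 < Complex.normSq (1 - r) := by
    rw [Complex.normSq_pos]
    exact sub_ne_zero.2 h2.symm
  have h4 : ‖r‖ ^ 2 ≤ 1 := pow_le_one₀ (norm_nonneg _) h1
  rw [StarA_sq] at h4
  rw [Complex.inv_re, ← mul_div_assoc, le_div_iff₀ h3, Complex.normSq_apply]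
  simp only [Complex.sub_re, Complex.one_re, Complex.sub_im, Complex.one_im]
  nlinarith

/-- the vector after the factor -/
private theorem StarA_M0 (t : ℂ × ℂ) (h : t.1 ≠ 1) (v : Fin 2 → ℂ) :
    (StarA_M t *ᵥ v) 0 = t.2 * v 0 + (1 - t.1)⁻¹ * (v 1 - t.2 * v 0) := by
  have h1 : t.1 - 1 ≠ 0 := sub_ne_zero.2 h
  have h2 : (1 : ℂ) - t.1 ≠ 0 := sub_ne_zero.2 h.symm
  have h3 : (1 - t.1)⁻¹ = -(t.1 - 1)⁻¹ := by
    rw [← inv_neg, neg_sub]
  rw [h3]
  unfold StarA_M TD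
  simp [Matrix.mulVec, dotProduct, Fin.sum_univ_two]
  field_simp
  ring

private theorem StarA_M1 (t : ℂ × ℂ) (h : t.1 ≠ 1) (v : Fin 2 → ℂ) :
    (StarA_M t *ᵥ v) 1 = v 1 + (1 - t.1)⁻¹ * (v 1 - t.2 * v 0) := by
  have h1 : t.1 - 1 ≠ 0 := sub_ne_zero.2 h
  have h3 : (1 - t.1)⁻¹ = -(t.1 - 1)⁻¹ := by
    rw [← inv_neg, neg_sub]
  rw [h3]
  unfold StarA_M TD
  simp [Matrix.mulVec, dotProduct, Fin.sum_univ_two]
  field_simp
  ring

private theorem StarA_d_step (t : ℂ × ℂ) (h : t.1 ≠ 1) (v : Fin 2 → ℂ) :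
    StarA_d (StarA_M t *ᵥ v) = v 1 - t.2 * v 0 := by
  unfold StarA_d
  rw [StarA_M0 t h, StarA_M1 t h]
  ring

private theorem StarA_N_step (t : ℂ × ℂ) (h : StarA_good t) (v : Fin 2 → ℂ) :
    StarA_N (StarA_M t *ᵥ v) = StarA_N v + 2 * ((1 - t.1)⁻¹).re * ‖v 1 - t.2 * v 0‖ ^ 2 := by
  unfold StarA_N
  rw [StarA_M0 t h.2.1, StarA_M1 t h.2.1]
  have hz : ‖v 0‖ ^ 2 = ‖t.2 * v 0‖ ^ 2 := by rw [norm_mul, h.2.2.1, one_mul]
  rw [hz]
  generalize t.2 * v 0 = x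
  generalize v 1 = y
  generalize (1 - t.1)⁻¹ = p
  simp only [StarA_sq, Complex.add_re, Complex.add_im, Complex.mul_re, Complex.mul_im,
    Complex.sub_re, Complex.sub_im]
  ring

/-- the inequality at a spoke -/
private theorem StarA_spoke (z x y : ℂ) (hz : ‖z‖ = 1) (hz1 : z ≠ 1) :
    ‖1 - z‖ * (‖y‖ ^ 2 - ‖x‖ ^ 2) ≤ 2 * (‖y - x‖ * ‖y - z * x‖) := by
  have h1 : ‖1 - z‖ ^ 2 * (‖y‖ ^ 2 - ‖x‖ ^ 2) =
      2 * ((y - z * x) * (starRingEnd ℂ) (y - x) * (1 - (starRingEnd ℂ) z)).re := by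
    have h2 : z.re ^ 2 + z.im ^ 2 = 1 := by rw [← StarA_sq, hz, one_pow]
    simp only [StarA_sq, Complex.mul_re, Complex.mul_im, Complex.sub_re, Complex.sub_im,
      Complex.conj_re, Complex.conj_im, Complex.one_re, Complex.one_im]
    linear_combination (y.re ^ 2 + y.im ^ 2 - x.re ^ 2 - x.im ^ 2 + 2 * (x.re ^ 2 + x.im ^ 2) -
      2 * (x.re * y.re + x.im * y.im)) * h2
  have h3 : ((y - z * x) * (starRingEnd ℂ) (y - x) * (1 - (starRingEnd ℂ) z)).re ≤
      ‖y - z * x‖ * ‖y - x‖ * ‖1 - z‖ := by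
    refine (Complex.re_le_norm _).trans ?_
    rw [norm_mul, norm_mul, Complex.norm_conj]
    have h4 : ‖1 - (starRingEnd ℂ) z‖ = ‖1 - z‖ := by
      rw [← Complex.norm_conj (1 - z), map_sub, map_one]
    rw [h4]
  have h5 : 0 < ‖1 - z‖ := norm_pos_iff.2 (sub_ne_zero.2 hz1.symm)
  have h6 : ‖1 - z‖ * (‖1 - z‖ * (‖y‖ ^ 2 - ‖x‖ ^ 2)) ≤
      ‖1 - z‖ * (2 * (‖y - x‖ * ‖y - z * x‖)) := by
    calc ‖1 - z‖ * (‖1 - z‖ * (‖y‖ ^ 2 - ‖x‖ ^ 2)) = ‖1 - z‖ ^ 2 * (‖y‖ ^ 2 - ‖x‖ ^ 2) := by ring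
      _ ≤ 2 * (‖y - z * x‖ * ‖y - x‖ * ‖1 - z‖) := by
        rw [h1]
        linarith
      _ = _ := by ring
  exact le_of_mul_le_mul_left h6 h5

private theorem StarA_N_step_le (t : ℂ × ℂ) (h : StarA_good t) (v : Fin 2 → ℂ) :
    StarA_N v + ‖v 1 - t.2 * v 0‖ ^ 2 ≤ StarA_N (StarA_M t *ᵥ v) := by
  rw [StarA_N_step t h]
  have h1 := StarA_re t.1 h.1 h.2.1
  nlinarith [sq_nonneg ‖v 1 - t.2 * v 0‖]

/-- the product of the normalized factors -/
private noncomputable def StarA_P (L : List (ℂ × ℂ)) : Matrix (Fin 2) (Fin 2) ℂ :=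
  (L.map StarA_M).prod

private theorem StarA_P_cons (t : ℂ × ℂ) (L : List (ℂ × ℂ)) (v : Fin 2 → ℂ) :
    StarA_P (t :: L) *ᵥ v = StarA_M t *ᵥ (StarA_P L *ᵥ v) := by
  unfold StarA_P
  rw [List.map_cons, List.prod_cons, Matrix.mulVec_mulVec]

private theorem StarA_P_nil (v : Fin 2 → ℂ) : StarA_P [] *ᵥ v = v := by
  unfold StarA_P
  rw [List.map_nil, List.prod_nil, Matrix.one_mulVec]

private theorem StarA_mono (L : List (ℂ × ℂ)) (h : ∀ t ∈ L, StarA_good t) (v : Fin 2 → ℂ) :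
    StarA_N v ≤ StarA_N (StarA_P L *ᵥ v) ∧
      (L ≠ [] → StarA_N (StarA_P L *ᵥ v) = StarA_N v → StarA_d (StarA_P L *ᵥ v) = 0) := by
  induction L with
  | nil =>
    rw [StarA_P_nil]
    exact ⟨le_rfl, fun h => absurd rfl h⟩
  | cons t L ih =>
    have ht := h t (List.mem_cons_self ..)
    obtain ⟨h1, _⟩ := ih fun s hs => h s (List.mem_cons_of_mem _ hs)
    rw [StarA_P_cons]
    set w := StarA_P L *ᵥ v
    have h2 := StarA_N_step_le t ht w
    refine ⟨by nlinarith [sq_nonneg ‖w 1 - t.2 * w 0‖], fun _ h3 => ?_⟩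
    rw [StarA_d_step t ht.2.1]
    have h4 : ‖w 1 - t.2 * w 0‖ ^ 2 = 0 := le_antisymm (by linarith) (sq_nonneg _)
    exact norm_eq_zero.1 (pow_eq_zero_iff two_ne_zero |>.1 h4)

private theorem StarA_strict (L : List (ℂ × ℂ)) (h : ∀ t ∈ L, StarA_good t) (hL : L ≠ [])
    (v : Fin 2 → ℂ) (hd : StarA_d v = 0) (hv : v ≠ 0) :
    StarA_N v < StarA_N (StarA_P L *ᵥ v) := by
  induction L with
  | nil => exact absurd rfl hL
  | cons t L ih =>
    have ht := h t (List.mem_cons_self ..)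
    rw [StarA_P_cons]
    by_cases hL' : L = []
    · subst hL'
      rw [StarA_P_nil]
      have h2 := StarA_N_step_le t ht v
      have h3 : v 1 = v 0 := sub_eq_zero.1 hd
      have h4 : v 0 ≠ 0 := by
        intro h5
        apply hv
        funext i
        fin_cases i
        · exact h5
        · exact h3.trans h5
      have h5 : v 1 - t.2 * v 0 ≠ 0 := by
        rw [h3]
        have : v 0 - t.2 * v 0 = (1 - t.2) * v 0 := by ring
        rw [this]
        exact mul_ne_zero (sub_ne_zero.2 ht.2.2.2.symm) h4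
      have h6 : 0 < ‖v 1 - t.2 * v 0‖ ^ 2 := pow_pos (norm_pos_iff.2 h5) 2
      linarith
    · have h1 := ih (fun s hs => h s (List.mem_cons_of_mem _ hs)) hL'
      have h2 := StarA_N_step_le t ht (StarA_P L *ᵥ v)
      nlinarith [sq_nonneg ‖(StarA_P L *ᵥ v) 1 - t.2 * (StarA_P L *ᵥ v) 0‖]

/-- the chain of inequalities -/
private theorem StarA_chain (L : List (ℂ × ℂ)) (h : ∀ t ∈ L, StarA_good t) (v : Fin 2 → ℂ)
    (hv : 0 < StarA_N v) : ∃ X : Fin L.length → ℝ, (∀ i, 0 < X i) ∧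
      (∏ i, (X i + 1)) * StarA_N v ≤ StarA_N (StarA_P L *ᵥ v) * ∏ i, X i ∧
      ((L.map fun t => ‖1 - t.2‖).prod * ∏ i, X i) ^ 2 * ‖StarA_d (StarA_P L *ᵥ v)‖ ^ 2 ≤
        4 ^ L.length * ‖StarA_d v‖ ^ 2 := by
  induction L with
  | nil =>
    refine ⟨fun _ => 1, fun _ => one_pos, ?_, ?_⟩
    · rw [StarA_P_nil]
      show (∏ i : Fin 0, ((1 : ℝ) + 1)) * _ ≤ _ * ∏ i : Fin 0, (1 : ℝ)
      simp
    · rw [StarA_P_nil]
      show (([] : List ℝ).prod * ∏ i : Fin 0, (1 : ℝ)) ^ 2 * _ ≤ (4 : ℝ) ^ 0 * _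
      simp
  | cons t L ih =>
    have ht := h t (List.mem_cons_self ..)
    have hL : ∀ s ∈ L, StarA_good s := fun s hs => h s (List.mem_cons_of_mem _ hs)
    obtain ⟨X, hX, h1, h2⟩ := ih hL
    have hm := (StarA_mono L hL v).1
    rw [StarA_P_cons]
    set w := StarA_P L *ᵥ v with hw
    have hN : 0 < StarA_N w := lt_of_lt_of_le hv hm
    have hd0 : w 1 - t.2 * w 0 ≠ 0 := by
      intro h3
      have h4 : w 1 = t.2 * w 0 := sub_eq_zero.1 h3
      unfold StarA_N at hN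
      rw [h4, norm_mul, ht.2.2.1, one_mul, sub_self] at hN
      exact lt_irrefl _ hN
    set D : ℝ := ‖w 1 - t.2 * w 0‖ ^ 2 with hD
    have hDpos : 0 < D := pow_pos (norm_pos_iff.2 hd0) 2
    refine ⟨(Fin.cons (StarA_N w / D) X : Fin (L.length + 1) → ℝ), ?_, ?_, ?_⟩
    · intro i
      refine Fin.cases ?_ (fun j => ?_) i
      · exact div_pos hN hDpos
      · exact hX j
    · have e1 : ∏ i : Fin (L.length + 1), ((Fin.cons (StarA_N w / D) X : Fin (L.length + 1) → ℝ) i + 1) =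
          (StarA_N w / D + 1) * ∏ i, (X i + 1) := by
        rw [Fin.prod_univ_succ]
        rfl
      have e2 : ∏ i : Fin (L.length + 1), (Fin.cons (StarA_N w / D) X : Fin (L.length + 1) → ℝ) i =
          (StarA_N w / D) * ∏ i, X i := by
        rw [Fin.prod_univ_succ]
        rfl
      show (∏ i : Fin (L.length + 1), ((Fin.cons (StarA_N w / D) X : Fin (L.length + 1) → ℝ) i + 1)) *
          _ ≤ _ * ∏ i : Fin (L.length + 1), (Fin.cons (StarA_N w / D) X : Fin (L.length + 1) → ℝ) i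
      rw [e1, e2]
      have h5 := StarA_N_step_le t ht w
      rw [← hD] at h5
      have h6 : (StarA_N w / D + 1) * StarA_N w ≤
          StarA_N (StarA_M t *ᵥ w) * (StarA_N w / D) := by
        have h7 : (StarA_N w / D + 1) * StarA_N w = (StarA_N w + D) * (StarA_N w / D) := by
          field_simp
        rw [h7]
        exact mul_le_mul_of_nonneg_right h5 (div_pos hN hDpos).le
      have hXp : 0 < ∏ i, X i := Finset.prod_pos fun i _ => hX i
      calc (StarA_N w / D + 1) * (∏ i, (X i + 1)) * StarA_N v =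
          (StarA_N w / D + 1) * ((∏ i, (X i + 1)) * StarA_N v) := by ring
        _ ≤ (StarA_N w / D + 1) * (StarA_N w * ∏ i, X i) :=
          mul_le_mul_of_nonneg_left h1 (by have := (div_pos hN hDpos).le; linarith)
        _ = ((StarA_N w / D + 1) * StarA_N w) * ∏ i, X i := by ring
        _ ≤ (StarA_N (StarA_M t *ᵥ w) * (StarA_N w / D)) * ∏ i, X i :=
          mul_le_mul_of_nonneg_right h6 hXp.le
        _ = _ := by ring
    · have e2 : ∏ i : Fin (L.length + 1), (Fin.cons (StarA_N w / D) X : Fin (L.length + 1) → ℝ) i =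
          (StarA_N w / D) * ∏ i, X i := by
        rw [Fin.prod_univ_succ]
        rfl
      show ((List.map (fun t => ‖1 - t.2‖) (t :: L)).prod * ∏ i : Fin (L.length + 1),
        (Fin.cons (StarA_N w / D) X : Fin (L.length + 1) → ℝ) i) ^ 2 * _ ≤
          (4 : ℝ) ^ (L.length + 1) * _
      rw [e2, List.map_cons, List.prod_cons, StarA_d_step t ht.2.1, ← hD]
      have h5 := StarA_spoke t.2 (w 0) (w 1) ht.2.2.1 ht.2.2.2
      have h6 : (‖1 - t.2‖ * StarA_N w) ^ 2 ≤ 4 * (‖StarA_d w‖ ^ 2 * D) := by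
        have h7 : (‖1 - t.2‖ * StarA_N w) ^ 2 ≤ (2 * (‖w 1 - w 0‖ * ‖w 1 - t.2 * w 0‖)) ^ 2 :=
          pow_le_pow_left₀ (mul_nonneg (norm_nonneg _) hN.le) h5 2
        refine h7.trans (le_of_eq ?_)
        unfold StarA_d
        rw [hD]
        ring
      have h8 : (‖1 - t.2‖ * (StarA_N w / D)) ^ 2 * D ≤ 4 * ‖StarA_d w‖ ^ 2 := by
        have h9 : (‖1 - t.2‖ * (StarA_N w / D)) ^ 2 * D = (‖1 - t.2‖ * StarA_N w) ^ 2 / D := by
          field_simp
        rw [h9, div_le_iff₀ hDpos]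
        linarith
      set Q : ℝ := (L.map fun t => ‖1 - t.2‖).prod * ∏ i, X i with hQ
      calc (‖1 - t.2‖ * (List.map (fun t => ‖1 - t.2‖) L).prod * (StarA_N w / D * ∏ i, X i)) ^ 2 * D =
          ((‖1 - t.2‖ * (StarA_N w / D)) ^ 2 * D) * Q ^ 2 := by rw [hQ]; ring
        _ ≤ (4 * ‖StarA_d w‖ ^ 2) * Q ^ 2 := mul_le_mul_of_nonneg_right h8 (sq_nonneg _)
        _ = 4 * (Q ^ 2 * ‖StarA_d w‖ ^ 2) := by ring
        _ ≤ 4 * (4 ^ L.length * ‖StarA_d v‖ ^ 2) := by linarith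
        _ = 4 ^ (L.length + 1) * ‖StarA_d v‖ ^ 2 := by ring

private theorem StarA_det (L : List (ℂ × ℂ)) (h : ∀ t ∈ L, StarA_good t) :
    (StarA_P L).det = (L.map fun t => t.2).prod := by
  induction L with
  | nil => simp [StarA_P]
  | cons t L ih =>
    have ht := h t (List.mem_cons_self ..)
    have e1 : StarA_P (t :: L) = StarA_M t * StarA_P L := by
      unfold StarA_P
      rw [List.map_cons, List.prod_cons]
    rw [e1, Matrix.det_mul, ih fun s hs => h s (List.mem_cons_of_mem _ hs), List.map_cons,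
      List.prod_cons]
    have h1 : t.1 - 1 ≠ 0 := sub_ne_zero.2 ht.2.1
    have h2 : (StarA_M t).det = t.2 := by
      unfold StarA_M TD
      rw [Matrix.det_smul, Matrix.det_fin_two_of, Fintype.card_fin]
      field_simp
      ring
    rw [h2]

private theorem StarA_prod (L : List (ℂ × ℂ)) :
    StarA_P L = ((L.map fun t => t.1 - 1).prod)⁻¹ • (L.map TD).prod := by
  induction L with
  | nil => simp [StarA_P]
  | cons t L ih =>
    have e1 : StarA_P (t :: L) = StarA_M t * StarA_P L := by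
      unfold StarA_P
      rw [List.map_cons, List.prod_cons]
    rw [e1, ih, List.map_cons, List.prod_cons, List.map_cons, List.prod_cons]
    unfold StarA_M
    rw [smul_mul_smul_comm, mul_inv]

private theorem StarA_trace (L : List (ℂ × ℂ)) (h : ∀ t ∈ L, StarA_good t) (hW : WW L = 0) :
    (StarA_P L).trace = 2 := by
  have h1 : (L.map fun t => t.1 - 1).prod ≠ 0 := by
    rw [Ne, List.prod_eq_zero_iff, List.mem_map]
    rintro ⟨t, ht, h2⟩
    exact (h t ht).2.1 (sub_eq_zero.1 h2)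
  rw [StarA_prod, Matrix.trace_smul, smul_eq_mul]
  unfold WW at hW
  rw [sub_eq_zero.1 hW]
  field_simp

private theorem StarA_eig (L : List (ℂ × ℂ)) (h : ∀ t ∈ L, StarA_good t) (hW : WW L = 0) (l : ℂ)
    (hl : l ^ 2 - 2 * l + (L.map fun t => t.2).prod = 0) :
    ∃ v : Fin 2 → ℂ, v ≠ 0 ∧ StarA_P L *ᵥ v = l • v := by
  have h1 : (StarA_P L - l • (1 : Matrix (Fin 2) (Fin 2) ℂ)).det = 0 := by
    have h2 := StarA_det L h
    have h3 := StarA_trace L h hW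
    rw [Matrix.det_fin_two] at h2 ⊢
    rw [Matrix.trace_fin_two] at h3
    simp only [Matrix.sub_apply, Matrix.smul_apply, Matrix.one_apply_eq, smul_eq_mul, mul_one]
    rw [Matrix.one_apply_ne (by decide : (0 : Fin 2) ≠ 1),
      Matrix.one_apply_ne (by decide : (1 : Fin 2) ≠ 0)]
    linear_combination hl + h2 - l * h3
  obtain ⟨v, hv, h2⟩ := Matrix.exists_mulVec_eq_zero_iff.2 h1
  refine ⟨v, hv, ?_⟩
  rw [Matrix.sub_mulVec, Matrix.smul_mulVec, Matrix.one_mulVec] at h2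
  exact sub_eq_zero.1 h2

private theorem StarA_N_smul (l : ℂ) (v : Fin 2 → ℂ) : StarA_N (l • v) = ‖l‖ ^ 2 * StarA_N v := by
  unfold StarA_N
  rw [Pi.smul_apply, Pi.smul_apply, smul_eq_mul, smul_eq_mul, norm_mul, norm_mul]
  ring

private theorem StarA_d_smul (l : ℂ) (v : Fin 2 → ℂ) : StarA_d (l • v) = l * StarA_d v := by
  unfold StarA_d
  rw [Pi.smul_apply, Pi.smul_apply, smul_eq_mul, smul_eq_mul]
  ring

/-- the norm changes strictly along an eigenvector -/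
private theorem StarA_lt (L : List (ℂ × ℂ)) (h : ∀ t ∈ L, StarA_good t) (hL : L ≠ []) (l : ℂ)
    (hl : l ≠ 0) (v : Fin 2 → ℂ) (hv : v ≠ 0) (he : StarA_P L *ᵥ v = l • v) :
    StarA_N v < ‖l‖ ^ 2 * StarA_N v := by
  obtain ⟨h1, h2⟩ := StarA_mono L h v
  rw [← StarA_N_smul, ← he]
  refine lt_of_le_of_ne h1 fun h3 => ?_
  have h4 := h2 hL h3.symm
  rw [he, StarA_d_smul] at h4
  have h5 : StarA_d v = 0 := (mul_eq_zero.1 h4).resolve_left hl
  exact absurd h3 (StarA_strict L h hL v h5 hv).ne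

/-- **Module STA** -/
theorem thm_StarA : St_StarA := by
  intro L h hL hW
  have hg : ∀ t ∈ L, StarA_good t := h
  set u : ℂ := (L.map fun t => t.2).prod with hu
  have hnu : ‖u‖ = 1 := by
    have key : ∀ L : List (ℂ × ℂ), (∀ t ∈ L, StarA_good t) → ‖(L.map fun t => t.2).prod‖ = 1 := by
      intro L
      induction L with
      | nil => simp
      | cons t L ih =>
        intro hg
        rw [List.map_cons, List.prod_cons, norm_mul, ih fun s hs => hg s (List.mem_cons_of_mem _ hs),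
          (hg t (List.mem_cons_self ..)).2.2.1, one_mul]
    exact key L hg
  obtain ⟨s, hs⟩ := IsAlgClosed.exists_pow_nat_eq (1 - u) (n := 2) (by norm_num)
  -- the two eigenvalues
  have hprod : (1 + s) * (1 - s) = u := by linear_combination -hs
  have hnn : ‖1 + s‖ * ‖1 - s‖ = 1 := by rw [← norm_mul, hprod, hnu]
  have hsum : ‖1 + s‖ ^ 2 + ‖1 - s‖ ^ 2 = 2 + 2 * ‖1 - u‖ := by
    have h1 : ‖1 - u‖ = ‖s‖ ^ 2 := by rw [← hs, norm_pow]
    rw [h1]
    simp only [StarA_sq, Complex.add_re, Complex.add_im, Complex.sub_re, Complex.sub_im,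
      Complex.one_re, Complex.one_im]
    ring
  have e1 : (1 + s) ^ 2 - 2 * (1 + s) + u = 0 := by linear_combination hs
  have e2 : (1 - s) ^ 2 - 2 * (1 - s) + u = 0 := by linear_combination hs
  -- an eigenvalue of absolute value greater than one
  obtain ⟨l, l', hl, hll, hsq⟩ : ∃ l l' : ℂ, (l ^ 2 - 2 * l + u = 0 ∧ 1 < ‖l‖) ∧
      ‖l‖ * ‖l'‖ = 1 ∧ ‖l‖ ^ 2 + ‖l'‖ ^ 2 = 2 + 2 * ‖1 - u‖ := by
    have hne : ‖1 + s‖ ≠ 1 := by
      intro h1
      have h2 : (1 + s : ℂ) ≠ 0 := by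
        intro h3
        rw [h3, norm_zero] at h1
        exact zero_ne_one h1
      obtain ⟨v, hv, he⟩ := StarA_eig L hg hW (1 + s) e1
      have h3 := StarA_lt L hg hL (1 + s) h2 v hv he
      rw [h1, one_pow, one_mul] at h3
      exact lt_irrefl _ h3
    rcases lt_or_gt_of_ne hne with h1 | h1
    · refine ⟨1 - s, 1 + s, ⟨e2, ?_⟩, by rw [mul_comm]; exact hnn, by rw [add_comm]; exact hsum⟩
      by_contra h2
      push Not at h2
      have h3 : ‖1 + s‖ * ‖1 - s‖ ≤ ‖1 + s‖ * 1 := mul_le_mul_of_nonneg_left h2 (norm_nonneg _)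
      linarith
    · exact ⟨1 + s, 1 - s, ⟨e1, h1⟩, hnn, hsum⟩
  obtain ⟨hl, hl1⟩ := hl
  have hl0 : l ≠ 0 := by
    intro h1
    rw [h1, norm_zero] at hl1
    linarith
  obtain ⟨v, hv, he⟩ := StarA_eig L hg hW l hl
  have h3 := StarA_lt L hg hL l hl0 v hv he
  have h4 : 1 < ‖l‖ ^ 2 := one_lt_pow₀ hl1 two_ne_zero
  have hN : 0 < StarA_N v := by
    by_contra h5
    push Not at h5
    nlinarith
  obtain ⟨X, hX, a1, a2⟩ := StarA_chain L hg v hN
  rw [he, StarA_N_smul] at a1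
  rw [he, StarA_d_smul, norm_mul] at a2
  have hd : 0 < ‖StarA_d v‖ := by
    rw [norm_pos_iff]
    intro h5
    have h6 : v 1 = v 0 := sub_eq_zero.1 h5
    unfold StarA_N at hN
    rw [h6, sub_self] at hN
    exact lt_irrefl _ hN
  refine ⟨‖l‖, X, hl1, hX, ?_, ?_, ?_⟩
  · have h5 : (∏ i, (X i + 1)) * StarA_N v ≤ (‖l‖ ^ 2 * ∏ i, X i) * StarA_N v := by linarith
    exact le_of_mul_le_mul_right h5 hN
  · have h5 : ((L.map fun t => ‖1 - t.2‖).prod * ‖l‖ * ∏ i, X i) ^ 2 * ‖StarA_d v‖ ^ 2 ≤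
        4 ^ L.length * ‖StarA_d v‖ ^ 2 := by
      refine le_trans (le_of_eq ?_) a2
      ring
    exact le_of_mul_le_mul_right h5 (pow_pos hd 2)
  · have h5 : ‖l‖⁻¹ = ‖l'‖ := by
      rw [inv_eq_iff_eq_inv, eq_comm, inv_eq_iff_eq_inv]
      exact eq_inv_of_mul_eq_one_right hll
    rw [h5]
    linear_combination hsq - 2 * hll

end Pool.Agent.WHL
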