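import Pool.Agent.WHL.Defs

/-!
# WHL, module STB: an inequality for real numbers (helper82)
-/

set_option autoImplicit false

namespace Pool.Agent.WHL

/-- superadditivity of the geometric mean: `(∏ x)^(1/k) + 1 ≤ (∏ (x + 1))^(1/k)` -/
private theorem starB_geom (k : ℕ) (hk : 0 < k) (X : Fin k → ℝ) (hX : ∀ i, 0 < X i) :
    (∏ i, X i) ^ ((k : ℝ)⁻¹) + 1 ≤ (∏ i, (X i + 1)) ^ ((k : ℝ)⁻¹) := by
  have hk' : (0 : ℝ) < k := Nat.cast_pos.2 hk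
  have hw : ∀ i ∈ (Finset.univ : Finset (Fin k)), (0 : ℝ) ≤ (k : ℝ)⁻¹ := fun _ _ =>
    (inv_pos.2 hk').le
  have hw1 : ∑ _i ∈ (Finset.univ : Finset (Fin k)), (k : ℝ)⁻¹ = 1 := by
    rw [Finset.sum_const, Finset.card_univ, Fintype.card_fin, nsmul_eq_mul,
      mul_inv_cancel₀ hk'.ne']
  have hpos : ∀ i, 0 < X i + 1 := fun i => add_pos (hX i) one_pos
  have hP : 0 < ∏ i, X i := Finset.prod_pos fun i _ => hX i
  have hQ : 0 < ∏ i, (X i + 1) := Finset.prod_pos fun i _ => hpos i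
  have h1 := Real.geom_mean_le_arith_mean_weighted Finset.univ (fun _ : Fin k => (k : ℝ)⁻¹)
    (fun i => X i / (X i + 1)) hw hw1 fun i _ => (div_pos (hX i) (hpos i)).le
  have h2 := Real.geom_mean_le_arith_mean_weighted Finset.univ (fun _ : Fin k => (k : ℝ)⁻¹)
    (fun i => 1 / (X i + 1)) hw hw1 fun i _ => (div_pos one_pos (hpos i)).le
  rw [Real.finsetProd_rpow _ _ fun i _ => (div_pos (hX i) (hpos i)).le,
    Finset.prod_div_distrib, Real.div_rpow hP.le hQ.le] at h1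
  rw [Real.finsetProd_rpow _ _ fun i _ => (div_pos one_pos (hpos i)).le,
    Finset.prod_div_distrib, Finset.prod_const_one, Real.div_rpow zero_le_one hQ.le,
    Real.one_rpow] at h2
  have h3 : ∑ i, (k : ℝ)⁻¹ * (X i / (X i + 1)) + ∑ i, (k : ℝ)⁻¹ * (1 / (X i + 1)) = 1 := by
    rw [← Finset.sum_add_distrib]
    refine (Finset.sum_congr rfl fun i _ => ?_).trans hw1
    rw [← mul_add, ← add_div, div_self (hpos i).ne', mul_one]
  have hq : 0 < (∏ i, (X i + 1)) ^ ((k : ℝ)⁻¹) := Real.rpow_pos_of_pos hQ _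
  have h4 : (∏ i, X i) ^ ((k : ℝ)⁻¹) / (∏ i, (X i + 1)) ^ ((k : ℝ)⁻¹) +
      1 / (∏ i, (X i + 1)) ^ ((k : ℝ)⁻¹) ≤ 1 := by linarith
  rw [← add_div, div_le_one hq] at h4
  exact h4

private theorem starB_poly (h : ℝ) : 16384 * h ≤ (h ^ 2 + 3) ^ 8 := by
  have h0 : 0 ≤ h ^ 2 := sq_nonneg h
  have h1 : (h ^ 2 + 3) ^ 8 = 6561 + 17496 * h ^ 2 + (h ^ 2) ^ 2 * (20412 + 13608 * h ^ 2 +
      5670 * (h ^ 2) ^ 2 + 1512 * (h ^ 2) ^ 3 + 252 * (h ^ 2) ^ 4 + 24 * (h ^ 2) ^ 5 +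
      (h ^ 2) ^ 6) := by ring
  have h2 : 0 ≤ (h ^ 2) ^ 2 * (20412 + 13608 * h ^ 2 +
      5670 * (h ^ 2) ^ 2 + 1512 * (h ^ 2) ^ 3 + 252 * (h ^ 2) ^ 4 + 24 * (h ^ 2) ^ 5 +
      (h ^ 2) ^ 6) := by positivity
  have h3 : 0 ≤ (h - 1 / 2) ^ 2 := sq_nonneg _
  nlinarith

/-- [STB] -/
theorem thm_StarB : St_StarB := by
  intro k X Λ W d hk hΛ hW hX h1 h2 h3
  have hk0 : 0 < k := by omega
  have hkn : k ≠ 0 := hk0.ne'
  have hk' : (0 : ℝ) < k := Nat.cast_pos.2 hk0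
  have hΛ0 : 0 < Λ := by linarith
  have hP : 0 < ∏ i, X i := Finset.prod_pos fun i _ => hX i
  have hQ : 0 < ∏ i, (X i + 1) := Finset.prod_pos fun i _ => add_pos (hX i) one_pos
  obtain ⟨x, hx⟩ : ∃ x : ℝ, x = (∏ i, X i) ^ ((k : ℝ)⁻¹) := ⟨_, rfl⟩
  obtain ⟨t, ht⟩ : ∃ t : ℝ, t = Λ ^ ((k : ℝ)⁻¹) := ⟨_, rfl⟩
  obtain ⟨w, hw⟩ : ∃ w : ℝ, w = W ^ ((k : ℝ)⁻¹) := ⟨_, rfl⟩
  obtain ⟨m, hm⟩ : ∃ m : ℝ, m = Λ ^ ((3 : ℝ)⁻¹) := ⟨_, rfl⟩
  have hx0 : 0 < x := hx ▸ Real.rpow_pos_of_pos hP _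
  have ht0 : 0 < t := ht ▸ Real.rpow_pos_of_pos hΛ0 _
  have hm0 : 0 < m := hm ▸ Real.rpow_pos_of_pos hΛ0 _
  have hw0 : 0 ≤ w := hw ▸ Real.rpow_nonneg hW _
  have hxk : x ^ k = ∏ i, X i := by rw [hx, Real.rpow_inv_natCast_pow hP.le hkn]
  have htk : t ^ k = Λ := by rw [ht, Real.rpow_inv_natCast_pow hΛ0.le hkn]
  have hwk : w ^ k = W := by rw [hw, Real.rpow_inv_natCast_pow hW hkn]
  have hm3 : m ^ 3 = Λ := by
    have h := Real.rpow_inv_natCast_pow hΛ0.le (n := 3) (by norm_num)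
    rw [hm]
    exact_mod_cast h
  have htm : t ≤ m := by
    rw [ht, hm]
    refine Real.rpow_le_rpow_of_exponent_le hΛ.le ?_
    refine inv_anti₀ (by norm_num) ?_
    exact_mod_cast hk
  have hm1 : 1 < m := by
    by_contra hc
    rw [not_lt] at hc
    have := pow_le_one₀ hm0.le hc (n := 3)
    rw [hm3] at this
    linarith
  -- x + 1 ≤ t ^ 2 * x
  have hq : (∏ i, (X i + 1)) ^ ((k : ℝ)⁻¹) ≤ t ^ 2 * x := by
    have hh : (∏ i, (X i + 1)) ≤ (t ^ 2 * x) ^ k := by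
      rw [mul_pow, hxk, ← pow_mul, mul_comm 2 k, pow_mul, htk]
      exact h1
    have h4 := Real.rpow_le_rpow hQ.le hh (inv_pos.2 hk').le
    rwa [Real.pow_rpow_inv_natCast (by positivity) hkn] at h4
  have h5 : x + 1 ≤ t ^ 2 * x := by
    rw [hx] at hq ⊢
    exact (starB_geom k hk0 X hX).trans hq
  -- w * t * x ≤ 2
  have h6 : w * t * x ≤ 2 := by
    have h7 : (w * t * x) ^ k ≤ 2 ^ k := by
      rw [mul_pow, mul_pow, hxk, htk, hwk]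
      refine abs_le_of_sq_le_sq' ?_ (by positivity) |>.2
      rw [← pow_mul, mul_comm k 2, pow_mul]
      norm_num
      exact h2
    exact (pow_le_pow_iff_left₀ (by positivity) (by norm_num) hkn).1 h7
  -- w ≤ 2 * (m - m⁻¹)
  obtain ⟨h, hh⟩ : ∃ h : ℝ, h = m - m⁻¹ := ⟨_, rfl⟩
  have h8 : w * t ≤ 2 * (t ^ 2 - 1) := by
    have h9 : 1 ≤ (t ^ 2 - 1) * x := by linarith
    have h10 : w * t * x ≤ 2 * (t ^ 2 - 1) * x := by linarith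
    exact le_of_mul_le_mul_right h10 hx0
  have h11 : w ≤ 2 * (t - t⁻¹) := by
    have h12 : 2 * (t ^ 2 - 1) = 2 * (t - t⁻¹) * t := by
      field_simp
    rw [h12] at h8
    exact le_of_mul_le_mul_right h8 ht0
  have h13 : w ≤ 2 * h := by
    have h14 : m⁻¹ ≤ t⁻¹ := inv_anti₀ ht0 htm
    rw [hh]
    linarith
  have hhpos : 0 < h := by
    have h14 : m⁻¹ < 1 := inv_lt_one_of_one_lt₀ hm1
    rw [hh]
    linarith
  -- 2 d = h² (h² + 3)²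
  have h15 : Λ - Λ⁻¹ = h * (h ^ 2 + 3) := by
    rw [hh, ← hm3]
    field_simp
    ring
  have h16 : d = (h * (h ^ 2 + 3)) ^ 2 / 2 := by
    rw [← h15]
    linarith
  have h17 : w ^ 9 ≤ 1 / 2 * d ^ 4 := by
    refine (pow_le_pow_left₀ hw0 h13 9).trans ?_
    have h18 : 1 / 2 * d ^ 4 = h ^ 8 * (h ^ 2 + 3) ^ 8 / 32 := by
      rw [h16]
      ring
    rw [h18]
    have h19 := mul_le_mul_of_nonneg_left (starB_poly h) (pow_pos hhpos 8).le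
    have h20 : (2 * h) ^ 9 = h ^ 8 * (16384 * h) / 32 := by ring
    rw [h20]
    linarith
  calc W ^ 9 = (w ^ 9) ^ k := by rw [← hwk, ← pow_mul, ← pow_mul, mul_comm]
    _ ≤ (1 / 2 * d ^ 4) ^ k := pow_le_pow_left₀ (pow_nonneg hw0 9) h17 k
    _ = (1 / 2) ^ k * d ^ (4 * k) := by rw [mul_pow, ← pow_mul]

end Pool.Agent.WHL
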