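import Pool.Agent.WHL.Fin
import Pool.Agent.WHL.Form
import Pool.Agent.WHL.Few
import Pool.Agent.WHL.StarA
import Pool.Agent.WHL.StarB
import Pool.Agent.WHL.Merge
import Pool.Agent.WHL.Aver

/-!
# WHL: wheels with series-parallel rims: the theorem without hypotheses
-/

namespace Pool.Agent.WHL

/-- **Wheels.**  The network polynomial of a wheel (rims replaced by series-parallel networks)
does not vanish identically along twists which are non-zero on a spanning set. -/
theorem thm_Wheel : St_Wheel :=
  wheel_of thm_Form thm_Few (star_of thm_StarA thm_StarB) thm_Merge thm_Aver

end Pool.Agent.WHL
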