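import Pool.Agent.WHL.Defs

/-!
# WHL: assembly (helper60)
-/

set_option autoImplicit false
set_option linter.unusedSectionVars false

open Submodule

namespace Pool.Agent.WHL

open Pool.Agent.SPT

section

variable {V : Type} [AddCommGroup V] [Module (ZMod 2) V] [DecidableEq V]

/-! ### functionals -/

private theorem ext_fun {m : ℕ} (e : ZMod m → V) (K : Submodule (ZMod 2) V)
    (h : LinearIndependent (ZMod 2) (K.mkQ ∘ e)) (g : ZMod m → ZMod 2) :
    ∃ φ : V →ₗ[ZMod 2] ZMod 2, (∀ k ∈ K, φ k = 0) ∧ ∀ i, φ (e i) = g i := by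
  obtain ⟨φ1, h1⟩ := LinearMap.exists_extend
    ((Module.Basis.span h).constr ℕ g : span (ZMod 2) (Set.range (K.mkQ ∘ e)) →ₗ[ZMod 2] ZMod 2)
  refine ⟨φ1.comp K.mkQ, fun k hk => ?_, fun i => ?_⟩
  · rw [LinearMap.comp_apply, mkQ_apply, (Submodule.Quotient.mk_eq_zero K).2 hk, map_zero]
  · have h2 := LinearMap.congr_fun h1 (Module.Basis.span h i)
    rw [Module.Basis.constr_basis, LinearMap.comp_apply, Submodule.subtype_apply,
      Module.Basis.span_apply] at h2
    exact h2

private theorem not_mem_of_fun (K : Submodule (ZMod 2) V) (A : Set V) (φ : V →ₗ[ZMod 2] ZMod 2)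
    (hK : ∀ k ∈ K, φ k = 0) (hA : ∀ a ∈ A, φ a = 0) (v : V) (hv : φ v ≠ 0) :
    v ∉ K ⊔ span (ZMod 2) A := by
  intro h
  apply hv
  have h1 : K ⊔ span (ZMod 2) A ≤ LinearMap.ker φ :=
    sup_le (fun k hk => hK k hk) (span_le.2 fun a ha => hA a ha)
  exact h1 h

private theorem two_ne {m : ℕ} (hm : 3 ≤ m) (i : ZMod m) : i + 1 ≠ i := by
  intro h
  have h1 : (1 : ZMod m) = 0 := by
    have := congrArg (fun t => t - i) h
    simpa using this
  have h2 : (m : ℕ) ∣ 1 := by
    rw [← ZMod.natCast_eq_zero_iff]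
    exact_mod_cast h1
  have := Nat.le_of_dvd one_pos h2
  omega

private theorem inv {S R : Finset V} {K : Submodule (ZMod 2) V} (h : SPWheel S R K) :
    ∀ s ∈ S, s ∉ K ∧ ∀ w ∈ R, s + w ∉ K := by
  induction h with
  | wheel m e K hm he =>
    intro s hs
    obtain ⟨i, _, rfl⟩ := Finset.mem_image.1 hs
    constructor
    · obtain ⟨φ, h1, h2⟩ := ext_fun e K he (fun _ => 1)
      intro h
      have h3 := h1 _ h
      rw [h2] at h3
      exact one_ne_zero h3
    · intro w hw h
      obtain ⟨j, _, rfl⟩ := Finset.mem_image.1 hw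
      have key : ∃ g : ZMod m → ZMod 2, g i + (g j + g (j + 1)) ≠ 0 := by
        by_cases h1 : i = j
        · refine ⟨fun t => if t = j + 1 then 1 else 0, ?_⟩
          have h2 : j ≠ j + 1 := (two_ne hm j).symm
          simp only [h1, h2, if_false, if_true]
          decide
        · by_cases h2 : i = j + 1
          · refine ⟨fun t => if t = j then 1 else 0, ?_⟩
            have h3 : j + 1 ≠ j := two_ne hm j
            simp only [h2, h3, if_false, if_true]
            decide
          · refine ⟨fun t => if t = i then 1 else 0, ?_⟩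
            have h3 : j ≠ i := fun h => h1 h.symm
            have h4 : j + 1 ≠ i := fun h => h2 h.symm
            simp only [h3, h4, if_false, if_true]
            decide
      obtain ⟨g, hg⟩ := key
      obtain ⟨φ, h1, h2⟩ := ext_fun e K he g
      apply hg
      rw [← h2, ← h2, ← h2, ← map_add, ← map_add]
      exact h1 _ h
  | loop S R K v hv _ ih =>
    intro s hs
    refine ⟨(ih s hs).1, fun w hw => ?_⟩
    rcases Finset.mem_insert.1 hw with rfl | hw
    · intro h
      exact (ih s hs).1 (mem_three K s w h hv)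
    · exact (ih s hs).2 w hw
  | coloop S R K v hv _ ih =>
    intro s hs
    refine ⟨fun h => (ih s hs).1 (mem_sup_left h), fun w hw => ?_⟩
    rcases Finset.mem_insert.1 hw with rfl | hw
    · intro h
      apply hv
      rw [add_comm] at h
      exact mem_three _ w s (mem_sup_left h) (in_sp _ _ _ (Finset.mem_coe.2 (Finset.mem_union_left _ hs)))
    · exact fun h => (ih s hs).2 w hw (mem_sup_left h)
  | parallel S R K v w hw hK _ ih =>
    intro s hs
    refine ⟨(ih s hs).1, fun a ha => ?_⟩
    rcases Finset.mem_insert.1 ha with rfl | ha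
    · intro h
      apply (ih s hs).2 w hw
      have : s + w = (s + a) + (a + w) := by
        rw [add_assoc, ← add_assoc a a w, aself, zero_add]
      rw [this]
      exact add_mem h hK
    · exact (ih s hs).2 a ha
  | series S R K v w hvw hv hK _ ih =>
    intro s hs
    refine ⟨fun h => (ih s hs).1 (mem_sup_left h), fun a ha => ?_⟩
    rcases Finset.mem_insert.1 ha with rfl | ha
    · intro h
      apply hv
      rw [add_comm] at h
      exact mem_three _ a s (mem_sup_left h) (in_sp _ _ _ (Finset.mem_coe.2 (Finset.mem_union_left _ hs)))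
    · exact fun h => (ih s hs).2 a ha (mem_sup_left h)

/-! ### the inequality for the spokes -/

open Classical in
/-- the spokes of weight `≠ 1` -/
noncomputable def actS (S : Finset V) (x : V → ℂ) : Finset V := S.filter fun v => x v ≠ 1

/-- the inequality -/
def StarS (S : Finset V) (x : V → ℂ) : Prop :=
  3 ≤ (actS S x).card ∧ (∏ v ∈ actS S x, ‖1 - x v‖) ^ 9 ≤
    (1 / 2) ^ (actS S x).card * ‖1 - ∏ v ∈ actS S x, x v‖ ^ (4 * (actS S x).card)

private theorem StarS_congr (S : Finset V) (x y : V → ℂ) (h : ∀ v ∈ S, x v = y v)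
    (hx : StarS S x) : StarS S y := by
  have h1 : actS S y = actS S x := by
    unfold actS
    refine Finset.filter_congr fun v hv => ?_
    rw [h v hv]
  have h2 : ∀ v ∈ actS S x, x v = y v := fun v hv => h v (Finset.mem_filter.1 hv).1
  unfold StarS at hx ⊢
  rw [h1, ← Finset.prod_congr rfl h2,
    ← Finset.prod_congr rfl (fun v hv => by rw [h2 v hv] : ∀ v ∈ actS S x, ‖1 - x v‖ = ‖1 - y v‖)]
  exact hx

/-! ### the base case -/

private theorem filt_prod {α M : Type} [CommMonoid M] (p : α → Prop) [DecidablePred p] (h : α → M)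
    (L : List α) : ((L.filter fun t => p t).map h).prod = (L.map fun t => if p t then h t else 1).prod := by
  induction L with
  | nil => rfl
  | cons a L ih =>
    by_cases hp : p a
    · rw [List.filter_cons_of_pos (by simpa using hp), List.map_cons, List.map_cons, List.prod_cons,
        List.prod_cons, ih, if_pos hp]
    · rw [List.filter_cons_of_neg (by simpa using hp), List.map_cons, List.prod_cons, ih, if_neg hp,
        one_mul]

private theorem filt_len {α : Type} (p : α → Prop) [DecidablePred p] (L : List α) :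
    (L.filter fun t => p t).length = (L.map fun t => if p t then 1 else 0).sum := by
  induction L with
  | nil => rfl
  | cons a L ih =>
    by_cases hp : p a
    · rw [List.filter_cons_of_pos (by simpa using hp), List.map_cons, List.length_cons,
        List.sum_cons, ih, if_pos hp, add_comm]
    · rw [List.filter_cons_of_neg (by simpa using hp), List.map_cons, List.sum_cons, ih, if_neg hp,
        zero_add]

/-- the pairs of weights -/
noncomputable def LL {m : ℕ} (e : ZMod m → V) (x : V → ℂ) : List (ℂ × ℂ) :=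
  List.ofFn fun i : Fin m => (x (e (i : ℕ) + e ((i : ℕ) - 1)), x (e (i : ℕ)))

private theorem cast_bij (m : ℕ) [NeZero m] : Function.Bijective fun i : Fin m => ((i : ℕ) : ZMod m) := by
  have h : Function.Injective fun i : Fin m => ((i : ℕ) : ZMod m) := by
    intro i j hij
    have h1 : (i : ℕ) % m = (j : ℕ) % m := (ZMod.natCast_eq_natCast_iff' _ _ _).1 hij
    rw [Nat.mod_eq_of_lt i.2, Nat.mod_eq_of_lt j.2] at h1
    exact Fin.ext h1
  rw [Fintype.bijective_iff_injective_and_card]
  refine ⟨h, ?_⟩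
  rw [Fintype.card_fin, ZMod.card]

private theorem LL_prod {M : Type} [CommMonoid M] {m : ℕ} [NeZero m] (e : ZMod m → V)
    (he : Function.Injective e) (x : V → ℂ) (h : ℂ → M) :
    (((LL e x).filter fun t => t.2 ≠ 1).map fun t => h t.2).prod =
      ∏ v ∈ actS (Finset.univ.image e) x, h (x v) := by
  classical
  unfold LL actS
  rw [Finset.filter_image, Finset.prod_image (fun a _ b _ hab => he hab), Finset.prod_filter]
  have h1 := filt_prod (fun t : ℂ × ℂ => t.2 ≠ 1) (fun t => h t.2)
    (List.ofFn fun i : Fin m => (x (e (i : ℕ) + e ((i : ℕ) - 1)), x (e (i : ℕ))))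
  rw [List.map_ofFn, List.prod_ofFn] at h1
  refine Eq.trans ?_ (h1.trans ?_)
  · congr 2
  · exact (cast_bij m).prod_comp (fun i : ZMod m => if x (e i) ≠ 1 then h (x (e i)) else 1)

private theorem LL_len {m : ℕ} [NeZero m] (e : ZMod m → V)
    (he : Function.Injective e) (x : V → ℂ) :
    ((LL e x).filter fun t => t.2 ≠ 1).length = (actS (Finset.univ.image e) x).card := by
  classical
  unfold LL actS
  rw [Finset.filter_image, Finset.card_image_of_injective _ he, Finset.card_filter]
  have h1 := filt_len (fun t : ℂ × ℂ => t.2 ≠ 1)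
    (List.ofFn fun i : Fin m => (x (e (i : ℕ) + e ((i : ℕ) - 1)), x (e (i : ℕ))))
  rw [List.map_ofFn, List.sum_ofFn] at h1
  refine Eq.trans ?_ (h1.trans ?_)
  · congr 2
  · exact (cast_bij m).sum_comp (fun i : ZMod m => if x (e i) ≠ 1 then 1 else 0)

/-- the set of a wheel -/
def WX {m : ℕ} [NeZero m] (e : ZMod m → V) : Finset V :=
  Finset.univ.image e ∪ Finset.univ.image fun i => e i + e (i + 1)

private theorem no_block {m : ℕ} [NeZero m] (e : ZMod m → V) (K : Submodule (ZMod 2) V)
    (he : LinearIndependent (ZMod 2) (K.mkQ ∘ e)) (x : V → ℂ)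
    (hx : ∀ v ∈ WX e, v ∈ K ⊔ span (ZMod 2) (act (WX e) x))
    (B : ZMod m → Prop) (i0 : ZMod m) (hi0 : B i0) (h1 : ∀ i, B i → x (e i) = 1)
    (h2 : ∀ i, B i → ¬ B (i + 1) → x (e i + e (i + 1)) = 1)
    (h3 : ∀ i, ¬ B i → B (i + 1) → x (e i + e (i + 1)) = 1) : False := by
  classical
  obtain ⟨φ, k1, k2⟩ := ext_fun e K he (fun i => if B i then 1 else 0)
  refine not_mem_of_fun K (act (WX e) x) φ k1 ?_ (e i0) ?_
    (hx (e i0) (Finset.mem_union_left _ (Finset.mem_image_of_mem e (Finset.mem_univ i0))))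
  · rintro a ⟨ha, ha'⟩
    rcases Finset.mem_union.1 ha with ha | ha
    · obtain ⟨i, _, rfl⟩ := Finset.mem_image.1 ha
      rw [k2, if_neg]
      exact fun h => ha' (h1 i h)
    · obtain ⟨i, _, rfl⟩ := Finset.mem_image.1 ha
      rw [map_add, k2, k2]
      by_cases hi : B i
      · by_cases hj : B (i + 1)
        · rw [if_pos hi, if_pos hj]
          decide
        · exact absurd (h2 i hi hj) ha'
      · by_cases hj : B (i + 1)
        · exact absurd (h3 i hi hj) ha'
        · rw [if_neg hi, if_neg hj, add_zero]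
  · rw [k2, if_pos hi0]
    exact one_ne_zero

private theorem spn_LL {m : ℕ} [NeZero m] (e : ZMod m → V) (K : Submodule (ZMod 2) V)
    (he : LinearIndependent (ZMod 2) (K.mkQ ∘ e)) (x : V → ℂ)
    (hx : ∀ v ∈ WX e, v ∈ K ⊔ span (ZMod 2) (act (WX e) x)) : Spn (LL e x) := by
  constructor
  · by_contra hno
    push Not at hno
    refine no_block e K he x hx (fun _ => True) 0 trivial (fun i _ => ?_)
      (fun i _ h => absurd trivial h) (fun i h _ => absurd trivial h)
    obtain ⟨j, rfl⟩ := (cast_bij m).2 i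
    have h1 := hno (x (e (j : ℕ) + e ((j : ℕ) - 1)), x (e (j : ℕ))) ?_
    · exact h1
    · unfold LL
      rw [List.mem_ofFn]
      exact ⟨j, rfl⟩
  · rintro s t P R ⟨n, hn⟩ hs ht
    by_contra hno
    push Not at hno
    have hlen : (s :: P ++ t :: R).length = m := by
      rw [← hn, List.length_rotate]
      unfold LL
      rw [List.length_ofFn]
    have hget : ∀ (k : ℕ) (hk : k < (s :: P ++ t :: R).length),
        (s :: P ++ t :: R)[k] = (x (e ((k + n : ℕ) : ZMod m) + e (((k + n : ℕ) : ZMod m) - 1)),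
          x (e ((k + n : ℕ) : ZMod m))) := by
      intro k hk
      have hk' : k < ((LL e x).rotate n).length := by
        rw [hn]
        exact hk
      have e1 : (s :: P ++ t :: R)[k] = ((LL e x).rotate n)[k] := by
        congr 1
        exact hn.symm
      rw [e1, List.getElem_rotate]
      unfold LL
      rw [List.getElem_ofFn]
      have e2 : ((((k + n) % (List.ofFn fun i : Fin m => (x (e (i : ℕ) + e ((i : ℕ) - 1)),
          x (e (i : ℕ)))).length : ℕ)) : ZMod m) = ((k + n : ℕ) : ZMod m) := by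
        rw [List.length_ofFn, ZMod.natCast_mod]
      rw [e2]
    have hl : P.length + 1 < (s :: P ++ t :: R).length := by simp
    have g0 := hget 0 (by simp)
    have g1 := hget (P.length + 1) hl
    have e0 : (s :: P ++ t :: R)[0] = s := by simp
    have e1 : (s :: P ++ t :: R)[P.length + 1] = t := by simp
    rw [e0] at g0
    rw [e1] at g1
    rw [g0] at hs
    rw [g1] at ht
    have gk : ∀ k, k < P.length + 1 → x (e ((k + n : ℕ) : ZMod m)) = 1 := by
      intro k hk
      have h1 := hget k (hk.trans hl)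
      have h2 : (s :: P ++ t :: R)[k] = (s :: P)[k]'(by simpa using hk) := by
        rw [List.getElem_append_left]
      rw [h2] at h1
      have h3 := hno _ (List.getElem_mem (by simpa using hk : k < (s :: P).length))
      rw [h1] at h3
      exact h3
    refine no_block e K he x hx (fun i => ∃ k, k < P.length + 1 ∧ i = ((k + n : ℕ) : ZMod m))
      ((0 + n : ℕ) : ZMod m) ⟨0, by omega, rfl⟩ ?_ ?_ ?_
    · rintro i ⟨k, hk, rfl⟩
      exact gk k hk
    · rintro i ⟨k, hk, rfl⟩ h2
      have h3 : k = P.length := by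
        by_contra h4
        apply h2
        exact ⟨k + 1, by omega, by push_cast; ring⟩
      subst h3
      have h5 : ((P.length + n : ℕ) : ZMod m) + 1 = ((P.length + 1 + n : ℕ) : ZMod m) := by
        push_cast
        ring
      have h6 : ((P.length + n : ℕ) : ZMod m) = ((P.length + 1 + n : ℕ) : ZMod m) - 1 := by
        push_cast
        ring
      rw [h5, h6, add_comm]
      exact ht
    · rintro i h2 ⟨k, hk, hk'⟩
      have h3 : k = 0 := by
        by_contra h4
        apply h2
        refine ⟨k - 1, by omega, ?_⟩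
        have h5 : i = ((k + n : ℕ) : ZMod m) - 1 := by rw [← hk']; ring
        rw [h5]
        obtain ⟨k', rfl⟩ : ∃ k', k = k' + 1 := ⟨k - 1, by omega⟩
        rw [Nat.add_sub_cancel]
        push_cast
        ring
      subst h3
      have h5 : i = ((0 + n : ℕ) : ZMod m) - 1 := by rw [← hk']; ring
      rw [hk', h5, add_comm]
      exact hs

/-- **the base case** -/
private theorem base (hF : St_Form) (hS : St_Few) (hStar : St_Star) (hM : St_Merge) {m : ℕ}
    [NeZero m] (e : ZMod m → V) (K : Submodule (ZMod 2) V) (hm : 3 ≤ m)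
    (he : LinearIndependent (ZMod 2) (K.mkQ ∘ e)) (x : V → ℂ) (hx : Good (WX e) K x)
    (h1 : ∀ v ∈ Finset.univ.image e, ‖x v‖ = 1) (h0 : PP (WX e) K x = 0) :
    StarS (Finset.univ.image e) x := by
  have hinj : Function.Injective e := fun a b hab => he.injective (by
    show K.mkQ (e a) = K.mkQ (e b)
    rw [hab])
  have hW : WW (LL e x) = 0 := by
    have := hF V m e K hm he x
    rw [← h0]
    exact this.symm
  have hspn := spn_LL e K he x hx.2.2.1
  have hlen : (LL e x).length = m := by
    unfold LL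
    rw [List.length_ofFn]
  have hmem : ∀ t ∈ LL e x, ‖t.1‖ ≤ 1 ∧ ‖t.2‖ = 1 := by
    intro t ht
    unfold LL at ht
    rw [List.mem_ofFn] at ht
    obtain ⟨i, rfl⟩ := ht
    refine ⟨hx.1 _ ?_, h1 _ (Finset.mem_image_of_mem e (Finset.mem_univ _))⟩
    refine Finset.mem_union_right _ (Finset.mem_image.2 ⟨((i : ℕ) : ZMod m) - 1,
      Finset.mem_univ _, ?_⟩)
    rw [sub_add_cancel, add_comm]
  have hfew : ¬ ((∃ t ∈ LL e x, t.1 = 1) ∨ ((LL e x).filter fun t => t.2 ≠ 1).length ≤ 2) :=
    fun h => hS (LL e x) (by rw [hlen]; exact hm) hmem hspn h hW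
  push Not at hfew
  obtain ⟨f1, f2⟩ := hfew
  obtain ⟨L', a1, a2, a3⟩ := hM (LL e x) (fun t ht => ⟨(hmem t ht).1, f1 t ht, (hmem t ht).2⟩)
    hspn.1
  have hperm := a2.perm
  have hlen' : L'.length = (actS (Finset.univ.image e) x).card := by
    rw [← LL_len e hinj x]
    have := hperm.length_eq
    rwa [List.length_map, List.length_map] at this
  have h3 : 3 ≤ (actS (Finset.univ.image e) x).card := by
    rw [← LL_len e hinj x]
    omega
  have hst := hStar L' a1 (by rw [hlen']; exact h3) (a3 hW)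
  have p1 : (L'.map fun t => ‖1 - t.2‖).prod = ∏ v ∈ actS (Finset.univ.image e) x, ‖1 - x v‖ := by
    rw [← LL_prod e hinj x (fun z => ‖1 - z‖)]
    have := (hperm.map fun z : ℂ => ‖1 - z‖).prod_eq
    rw [List.map_map, List.map_map] at this
    exact this
  have p2 : (L'.map fun t => t.2).prod = ∏ v ∈ actS (Finset.univ.image e) x, x v := by
    rw [← LL_prod e hinj x (fun z => z)]
    exact hperm.prod_eq
  rw [p1, p2, hlen'] at hst
  exact ⟨h3, hst⟩

private theorem un_ins (S R : Finset V) (v : V) : S ∪ insert v R = insert v (S ∪ R) := by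
  rw [Finset.union_insert]

/-- **the induction** -/
private theorem main (hF : St_Form) (hS : St_Few) (hStar : St_Star) (hM : St_Merge)
    {S R : Finset V} {K : Submodule (ZMod 2) V} (hW : SPWheel S R K) :
    ∀ x : V → ℂ, Good (S ∪ R) K x → (∀ v ∈ S, ‖x v‖ = 1) → PP (S ∪ R) K x = 0 → StarS S x := by
  induction hW with
  | wheel m e K hm he =>
    intro x hx h1 h0
    exact base hF hS hStar hM e K hm he x hx h1 h0
  | loop S R K v hv _ ih =>
    intro x hx h1 h0
    rw [un_ins] at hx h0
    by_cases hvX : v ∈ S ∪ R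
    · rw [Finset.insert_eq_of_mem hvX] at hx h0
      exact ih x hx h1 h0
    · rw [PP_loop _ K x v hvX hv] at h0
      exact ih x (Good_loop _ K x v hv hx) h1
        ((mul_eq_zero.1 h0).resolve_left (hx.2.1 v (Finset.mem_insert_self v _) hv))
  | coloop S R K v hv _ ih =>
    intro x hx h1 h0
    rw [un_ins] at hx h0
    rw [PP_coloop _ K x v hv] at h0
    exact ih x (Good_coloop _ K x v hv hx) h1
      ((mul_eq_zero.1 h0).resolve_left (sub_ne_zero.2 (coloop_ne _ K x v hv hx)))
  | parallel S R K v w hw hK hSP ih =>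
    intro x hx h1 h0
    have hwS : ∀ s ∈ S, s ≠ w := by
      rintro s hs rfl
      have := (inv hSP s hs).2 s hw
      rw [aself] at this
      exact this K.zero_mem
    rw [un_ins] at hx h0
    by_cases hvX : v ∈ S ∪ R
    · rw [Finset.insert_eq_of_mem hvX] at hx h0
      exact ih x hx h1 h0
    · obtain ⟨Y, hwY, hY⟩ : ∃ Y, w ∉ Y ∧ S ∪ R = insert w Y :=
        ⟨(S ∪ R).erase w, Finset.notMem_erase w _,
          (Finset.insert_erase (Finset.mem_union_right _ hw)).symm⟩
      rw [hY] at hvX hx h0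
      rw [Finset.mem_insert, not_or] at hvX
      rw [PP_parallel Y K x v w hvX.1 hvX.2 hwY hK] at h0
      have hup : ∀ s ∈ S, Function.update x w (x v * x w) s = x s :=
        fun s hs => Function.update_of_ne (hwS s hs) _ _
      refine StarS_congr S _ x hup (ih (Function.update x w (x v * x w)) ?_ ?_ ?_)
      · rw [hY]
        exact Good_parallel Y K x v w hvX.1 hvX.2 hwY hK hx
      · intro s hs
        rw [hup s hs]
        exact h1 s hs
      · rw [hY]
        exact h0
  | series S R K v w hvw hv hK hSP ih =>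
    intro x hx h1 h0
    rw [un_ins, un_ins] at hx h0
    rw [un_ins] at ih
    obtain ⟨X, hX⟩ : ∃ X, X = S ∪ R := ⟨_, rfl⟩
    rw [← hX] at hx h0 ih hv hK
    have hmv : v ∈ insert v (insert w X) := Finset.mem_insert_self _ _
    have hmw : w ∈ insert v (insert w X) :=
      Finset.mem_insert_of_mem (Finset.mem_insert_self _ _)
    have hw : w ∉ K ⊔ span (ZMod 2) (X : Set V) := by
      intro h
      apply hv
      rw [three v w]
      exact add_mem hK h
    have hvX : v ∉ X := fun h => hv (in_sp _ _ _ h)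
    have hwX : w ∉ X := fun h => hw (in_sp _ _ _ h)
    have hwS : ∀ s ∈ S, s ≠ w := by
      rintro s hs rfl
      exact hwX (by rw [hX]; exact Finset.mem_union_left _ hs)
    have hup : ∀ (c : ℂ), ∀ s ∈ S, Function.update x w c s = x s :=
      fun c s hs => Function.update_of_ne (hwS s hs) _ _
    have hfin : ∀ c : ℂ, Good (insert w X) (K ⊔ span (ZMod 2) {v}) (Function.update x w c) →
        PP (insert w X) (K ⊔ span (ZMod 2) {v}) (Function.update x w c) = 0 → StarS S x := by
      intro c hg hp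
      refine StarS_congr S _ x (hup c) (ih (Function.update x w c) hg ?_ hp)
      intro s hs
      rw [hup c s hs]
      exact h1 s hs
    have hn : ¬ (x v = 1 ∧ x w = 1) := by
      rintro ⟨k1, k2⟩
      apply hv
      refine sp_le K _ _ le_sup_left ?_ (hx.2.2.1 v hmv)
      rintro a ⟨ha, ha'⟩
      rcases Finset.mem_insert.1 ha with rfl | ha
      · exact absurd k1 ha'
      · rcases Finset.mem_insert.1 ha with rfl | ha
        · exact absurd k2 ha'
        · exact in_sp _ _ _ ha
    have hs : x v + x w - 2 ≠ 0 := fun h => hn (disc_two _ _ (hx.1 v hmv) (hx.1 w hmw) h)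
    by_cases hvwK : v + w ∈ K
    · -- `v` and `w` are also parallel
      have h2 : PP (insert v (insert w X)) K x =
          (x v * x w - 1) * PP X (K ⊔ span (ZMod 2) {v}) x := by
        rw [PP_parallel X K x v w hvw hvX hwX hvwK, PP_coloop X K _ w hw, Function.update_self,
          PP_eq, SS_update X x w hwX, ss_par K v w hvwK, PP_eq]
      have h3 : x v * x w - 1 ≠ 0 := by
        refine sub_ne_zero.2 fun h3 => ?_
        have hvK : v ∉ K := fun h => hv (mem_sup_left h)
        rcases hx.2.2.2 v hmv w hmw hvw hvK hvwK with k | k | k | k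
        · rw [k, one_mul] at h3
          exact hn ⟨k, h3⟩
        · rw [k, mul_one] at h3
          exact hn ⟨h3, k⟩
        · exact lt_ne_one _ (mul_lt_of _ _ (hx.1 v hmv) (hx.1 w hmw) (Or.inl k)) h3
        · exact lt_ne_one _ (mul_lt_of _ _ (hx.1 v hmv) (hx.1 w hmw) (Or.inr k)) h3
      rw [h2] at h0
      have h4 := (mul_eq_zero.1 h0).resolve_left h3
      refine hfin 1 (Good_series X K x v w hvw hv hK 1
        (by rw [norm_one]) (fun _ => one_ne_zero) (fun h => absurd hvwK h)
        (fun h => absurd hvwK h) hx) ?_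
      rw [PP_loop X _ _ w hwX ((mem_ss _ _ _).2 (Or.inr (by rwa [add_comm]))),
        Function.update_self, one_mul, PP_eq, SS_update X x w hwX, ← PP_eq]
      exact h4
    · obtain ⟨c, hc⟩ : ∃ c, c = (x v * x w - 1) / (x v + x w - 2) := ⟨_, rfl⟩
      have hc' : (x v + x w - 2) * (c - 1) = (x v - 1) * (x w - 1) := by
        rw [hc]
        field_simp
        ring
      have hcases : (c = 1 ∧ (x v = 1 ∨ x w = 1)) ∨ ‖c‖ < 1 := by
        by_cases k1 : x v = 1
        · refine Or.inl ⟨?_, Or.inl k1⟩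
          rw [k1, sub_self, zero_mul] at hc'
          rw [k1] at hs
          exact sub_eq_zero.1 ((mul_eq_zero.1 hc').resolve_left hs)
        · by_cases k2 : x w = 1
          · refine Or.inl ⟨?_, Or.inr k2⟩
            rw [k2, sub_self, mul_zero] at hc'
            rw [k2] at hs
            exact sub_eq_zero.1 ((mul_eq_zero.1 hc').resolve_left hs)
          · right
            rw [hc, norm_div, div_lt_one (norm_pos_iff.2 hs)]
            exact disc_lt _ _ (hx.1 v hmv) (hx.1 w hmw) k1 k2
      rw [PP_series X K x v w hvw hv hK c hc'] at h0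
      refine hfin c (Good_series X K x v w hvw hv hK c ?_ (fun h => absurd h hvwK)
        (fun _ => ?_) (fun _ hc1 => ?_) hx) ((mul_eq_zero.1 h0).resolve_left hs)
      · rcases hcases with k | k
        · rw [k.1, norm_one]
        · exact k.le
      · exact hcases.imp (fun k => k.1) id
      · rcases hcases with k | k
        · exact k.2
        · exact absurd hc1 (lt_ne_one _ k)

/-! ### the theorem -/

private theorem PP_ext (X Y : Finset V) (hYX : Y ⊆ X)
    (hs : span (ZMod 2) (Y : Set V) = span (ZMod 2) (X : Set V)) (x y : V → ℂ)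
    (h1 : ∀ v ∈ Y, y v = x v) (h2 : ∀ v ∈ X, v ∉ Y → y v = 1) : PP X ⊥ y = PP Y ⊥ x := by
  classical
  have e1 : PP Y ⊥ x = ∑ W ∈ Y.powerset, if Spans ⊥ X W then ∏ v ∈ W, (y v - 1) else 0 := by
    unfold PP
    refine Finset.sum_congr rfl fun W hW => ?_
    have h3 : Spans ⊥ Y W ↔ Spans ⊥ X W := by
      unfold Spans
      rw [hs]
    have h4 : ∏ v ∈ W, (x v - 1) = ∏ v ∈ W, (y v - 1) :=
      Finset.prod_congr rfl fun v hv => by rw [h1 v (Finset.mem_powerset.1 hW hv)]
    rw [h4]
    by_cases h5 : Spans ⊥ Y W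
    · rw [if_pos h5, if_pos (h3.1 h5)]
    · rw [if_neg h5, if_neg (fun h => h5 (h3.2 h))]
  rw [e1]
  unfold PP
  symm
  refine Finset.sum_subset (Finset.powerset_mono.2 hYX) fun W hW hWY => ?_
  obtain ⟨v, hv, hvY⟩ : ∃ v ∈ W, v ∉ Y := by
    by_contra h
    push Not at h
    exact hWY (Finset.mem_powerset.2 h)
  split_ifs
  · exact Finset.prod_eq_zero hv (by rw [h2 v (Finset.mem_powerset.1 hW hv) hvY, sub_self])
  · rfl

private theorem fin_prod {M : Type} [CommMonoid M] (T : Finset V) (g : V → M) :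
    ∏ v ∈ T, g v = ∏ i : Fin T.card, g (T.equivFin.symm i : V) := by
  rw [← Finset.prod_coe_sort]
  exact ((T.equivFin.symm).prod_comp (fun v : T => g (v : V))).symm

private theorem zpow_sum' {ι : Type} (T : Finset ι) (z : ℂ) (hz : z ≠ 0) (g : ι → ℤ) :
    z ^ ∑ i ∈ T, g i = ∏ i ∈ T, z ^ g i := by
  classical
  induction T using Finset.induction_on with
  | empty => simp
  | insert a T ha ih => rw [Finset.sum_insert ha, Finset.prod_insert ha, zpow_add₀ hz, ih]

private theorem nonV (hF : St_Form) (hS : St_Few) (hStar : St_Star) (hM : St_Merge)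
    (hA : St_Aver) {S R : Finset V} (hW : SPWheel S R ⊥) (Y : Finset V) (hY : Y ⊆ S ∪ R)
    (hs : span (ZMod 2) (Y : Set V) = span (ZMod 2) ((S ∪ R : Finset V) : Set V)) : NonV Y := by
  classical
  intro u hu
  by_contra hno
  push Not at hno
  have hu' : ∀ v ∈ Y, v ≠ 0 → u v ≠ 0 := hu
  have hS0 : ∀ v ∈ S, v ≠ 0 := by
    rintro v hv rfl
    exact (inv hW 0 hv).1 (zero_mem _)
  -- the consequence of the inequality
  have key : ∀ z : ℂ, ‖z‖ = 1 → (∀ v ∈ Y, v ≠ 0 → z ^ u v ≠ 1) →
      StarS S (fun v => if v ∈ Y then z ^ u v else 1) := by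
    intro z hz hz1
    have hn : ∀ v, ‖(if v ∈ Y then z ^ u v else 1 : ℂ)‖ = 1 := by
      intro v
      split_ifs
      · rw [norm_zpow, hz, one_zpow]
      · exact norm_one
    refine main hF hS hStar hM hW _ ⟨fun v _ => (hn v).le, fun v _ _ h => ?_, fun v hv => ?_,
      fun v _ w _ hvw _ hK => ?_⟩ (fun v _ => hn v) ?_
    · have h' : (if v ∈ Y then z ^ u v else 1 : ℂ) = 0 := h
      have := hn v
      rw [h', norm_zero] at this
      exact zero_ne_one this
    · have h1 : v ∈ span (ZMod 2) (Y : Set V) := by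
        rw [hs]
        exact subset_span hv
      refine mem_sup_right ?_
      refine (span_le.2 ?_ : span (ZMod 2) (Y : Set V) ≤ _) h1
      intro y hy
      by_cases hy0 : y = 0
      · rw [hy0]
        exact zero_mem _
      · refine subset_span ⟨hY hy, ?_⟩
        have hy' : y ∈ Y := hy
        show (if y ∈ Y then z ^ u y else 1 : ℂ) ≠ 1
        rw [if_pos hy']
        exact hz1 y hy' hy0
    · exfalso
      apply hvw
      have h1 : v + w = 0 := (Submodule.mem_bot _).1 hK
      have h2 : v = (v + w) + w := three v w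
      rw [h2, h1, zero_add]
    · rw [PP_ext (S ∪ R) Y hY hs (fun v => z ^ u v) _ (fun v hv => if_pos hv)
        (fun v _ hv => if_neg hv)]
      exact hno z hz
  -- the exponents
  obtain ⟨T, hT⟩ : ∃ T, T = S ∩ Y := ⟨_, rfl⟩
  have hTY : ∀ v ∈ T, v ∈ Y := fun v hv => by
    rw [hT] at hv
    exact (Finset.mem_inter.1 hv).2
  have hT0 : ∀ v ∈ T, v ≠ 0 := fun v hv => by
    rw [hT] at hv
    exact hS0 v (Finset.mem_inter.1 hv).1
  have hact : ∀ z : ℂ, (∀ v ∈ Y, v ≠ 0 → z ^ u v ≠ 1) →
      actS S (fun v => if v ∈ Y then z ^ u v else 1) = T := by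
    intro z hz
    unfold actS
    ext v
    rw [Finset.mem_filter, hT, Finset.mem_inter]
    constructor
    · rintro ⟨h1, h2⟩
      refine ⟨h1, ?_⟩
      by_contra h3
      exact h2 (if_neg h3)
    · rintro ⟨h1, h2⟩
      refine ⟨h1, ?_⟩
      show (if v ∈ Y then z ^ u v else 1 : ℂ) ≠ 1
      rw [if_pos h2]
      exact hz v h2 (hS0 v h1)
  obtain ⟨B, hB⟩ : ∃ B : Finset ℤ, B = (Y.filter fun v => v ≠ 0).image u := ⟨_, rfl⟩
  have hB0 : ∀ b ∈ B, b ≠ 0 := by
    intro b hb
    rw [hB] at hb
    obtain ⟨v, hv, rfl⟩ := Finset.mem_image.1 hb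
    exact hu' v (Finset.mem_filter.1 hv).1 (Finset.mem_filter.1 hv).2
  have hBY : ∀ z : ℂ, (∀ b ∈ B, z ^ b ≠ 1) → ∀ v ∈ Y, v ≠ 0 → z ^ u v ≠ 1 := by
    intro z hz v hv hv0
    refine hz (u v) ?_
    rw [hB]
    exact Finset.mem_image_of_mem u (Finset.mem_filter.2 ⟨hv, hv0⟩)
  by_cases hk : 1 ≤ T.card
  · obtain ⟨z, z1, z2, z3, z4⟩ := hA T.card (fun i => u (T.equivFin.symm i : V)) hk
      (fun i => hu' _ (hTY _ (T.equivFin.symm i).2) (hT0 _ (T.equivFin.symm i).2)) B hB0
    have hst := key z z1 (hBY z z2)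
    unfold StarS at hst
    rw [hact z (hBY z z2)] at hst
    obtain ⟨-, hst⟩ := hst
    have q1 : ∏ v ∈ T, ‖1 - (if v ∈ Y then z ^ u v else 1 : ℂ)‖ =
        ∏ i, ‖1 - z ^ u (T.equivFin.symm i : V)‖ := by
      rw [fin_prod T (fun v => ‖1 - (if v ∈ Y then z ^ u v else 1 : ℂ)‖)]
      refine Finset.prod_congr rfl fun i _ => ?_
      rw [if_pos (hTY _ (T.equivFin.symm i).2)]
    have q2 : ∏ v ∈ T, (if v ∈ Y then z ^ u v else 1 : ℂ) =
        z ^ ∑ i, u (T.equivFin.symm i : V) := by
      have hz0 : z ≠ 0 := by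
        rintro rfl
        rw [norm_zero] at z1
        exact zero_ne_one z1
      rw [fin_prod T (fun v => (if v ∈ Y then z ^ u v else 1 : ℂ)), zpow_sum' _ z hz0]
      refine Finset.prod_congr rfl fun i _ => ?_
      rw [if_pos (hTY _ (T.equivFin.symm i).2)]
    have hst' : (∏ v ∈ T, ‖1 - (if v ∈ Y then z ^ u v else 1 : ℂ)‖) ^ 9 ≤
        (1 / 2) ^ T.card * ‖1 - ∏ v ∈ T, (if v ∈ Y then z ^ u v else 1 : ℂ)‖ ^ (4 * T.card) := hst
    rw [q1, q2] at hst'
    exact absurd hst' (not_le.2 z4)
  · obtain ⟨z, z1, z2, -, -⟩ := hA 1 (fun _ => 1) le_rfl (fun _ => one_ne_zero) B hB0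
    have hst := key z z1 (hBY z z2)
    unfold StarS at hst
    rw [hact z (hBY z z2)] at hst
    omega

end

/-- **the theorem** -/
theorem wheel_of (hF : St_Form) (hS : St_Few) (hStar : St_Star) (hM : St_Merge) (hA : St_Aver) :
    St_Wheel := by
  intro V _ _ _ S R L hW hL Y hLY hY
  refine nonV hF hS hStar hM hA hW Y hY (le_antisymm (span_mono (Finset.coe_subset.2 hY)) ?_)
  rw [← hL]
  exact span_mono (Finset.coe_subset.2 hLY)

end Pool.Agent.WHL
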